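import Pool.Agent.Y661.ED.Fin
import Pool.Agent.Results.MP_1906c1_mp.ScaleAtEdge

/-! The location of the effective band edge: the final theorem. -/

set_option autoImplicit false
set_option linter.unusedSectionVars false

open scoped BigOperators ENNReal
open MeasureTheory ProbabilityTheory

namespace Pool.Agent.Y661.ED

open Pool.Agent.Results.MP_1906c1_mp.ScaleAtEdge
open Pool.Agent.H4R2
open Pool.Agent.H4R2.LO (Zd IsGen L2f)

/-- the conclusions for one coupling; `g` stands for `G_d` -/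
def Edge (d : ℕ) (g k K δ s0 σ : ℝ) : Prop :=
  (∀ᵐ ξ ∂(Measure.infinitePi fun _ : Fin d → ℤ => gaussianReal 0 1),
    Localized (H σ ξ) {E | 2 * d + (g + δ) * σ ^ 2 ≤ |E|}
      (k * Real.sqrt δ * |σ| / Real.log (1 / |σ|))) ∧
  (∃ G : Set ((Fin d → ℤ) → ℝ), MeasurableSet G ∧
    1 - Real.exp (-(k * Real.sqrt δ / |σ|)) ≤
      (Measure.infinitePi fun _ : Fin d → ℤ => gaussianReal 0 1).real G ∧
    ∀ ξ ∈ G, ∀ E : ℝ, 2 * d + (g - δ) * σ ^ 2 ≤ |E| →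
      SpreadOut σ ξ E (K * (δ * σ ^ 2) ^ ((d : ℝ) / 2)) (Real.exp (k * Real.sqrt δ / |σ|))) ∧
  ∀ (L : ℕ) [NeZero L], |σ| ^ (-(3 / 2) : ℝ) ≤ L → (L : ℝ) ≤ |σ| ^ (-(7 / 4) : ℝ) →
    ∃ G : Set (T d L → ℝ), MeasurableSet G ∧
      1 - Real.exp (-(s0 * |σ| ^ (-(1 / 4) : ℝ))) ≤
        (Measure.pi fun _ : T d L => gaussianReal 0 1).real G ∧
      ∀ ξ ∈ G, ∃ (E : ℝ) (ψ : T d L → ℝ), |E - (2 * d + g * σ ^ 2)| ≤ δ * σ ^ 2 ∧
        (∀ x, 1 ≤ ψ x ∧ ψ x ≤ 1 + δ) ∧ ∀ x, HT σ ξ ψ x = E * ψ x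

theorem rate_le (k δ σ : ℝ) (hk : 0 < k) (hδ : 0 < δ) (hδ1 : δ ≤ 1) (hσ : 0 < σ)
    (hσ1 : σ ≤ δ / 4) :
    k / 8 * Real.sqrt δ * σ / Real.log (1 / σ) ≤
      k * Real.sqrt (δ / 2 * σ ^ 2) / Real.log (2 / (δ / 2 * σ ^ 2 * σ)) ∧
    0 < k / 8 * Real.sqrt δ * σ / Real.log (1 / σ) := by
  have hσ2 : σ ≤ 1 / 4 := by linarith
  have hl0 : 0 < Real.log (1 / σ) := by
    apply Real.log_pos
    rw [lt_div_iff₀ hσ]
    linarith
  have hsd : 0 < Real.sqrt δ := Real.sqrt_pos.2 hδ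
  refine ⟨?_, by positivity⟩
  have h1 : Real.log (2 / (δ / 2 * σ ^ 2 * σ)) ≤ 4 * Real.log (1 / σ) := by
    have h2 : 4 * Real.log (1 / σ) = Real.log ((1 / σ) ^ 4) := by
      rw [Real.log_pow]
      push_cast
      ring
    rw [h2]
    apply Real.log_le_log (by positivity)
    rw [div_le_iff₀ (by positivity)]
    have h3 : (1 / σ) ^ 4 * (δ / 2 * σ ^ 2 * σ) = δ / 2 / σ := by
      field_simp
    rw [h3, le_div_iff₀ hσ]
    linarith
  have h4 : 0 < Real.log (2 / (δ / 2 * σ ^ 2 * σ)) := by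
    apply Real.log_pos
    rw [lt_div_iff₀ (by positivity)]
    have h5 : σ ^ 2 * σ ≤ 1 * 1 := by
      apply mul_le_mul _ (by linarith) hσ.le (by norm_num)
      exact pow_le_one₀ hσ.le (by linarith)
    have h6 : δ / 2 * σ ^ 2 * σ = δ / 2 * (σ ^ 2 * σ) := by ring
    rw [h6]
    calc 1 * (δ / 2 * (σ ^ 2 * σ)) ≤ 1 * (1 / 2 * (1 * 1)) := by gcongr
      _ < 2 := by norm_num
  have h5 : Real.sqrt (δ / 2 * σ ^ 2) = Real.sqrt (δ / 2) * σ := by
    rw [Real.sqrt_mul (by positivity), Real.sqrt_sq hσ.le]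
  have h6 : Real.sqrt δ / 2 ≤ Real.sqrt (δ / 2) := by
    apply Real.le_sqrt_of_sq_le
    rw [div_pow, Real.sq_sqrt hδ.le]
    linarith
  rw [h5, div_le_div_iff₀ hl0 h4]
  calc k / 8 * Real.sqrt δ * σ * Real.log (2 / (δ / 2 * σ ^ 2 * σ)) ≤
      k / 8 * Real.sqrt δ * σ * (4 * Real.log (1 / σ)) := by gcongr
    _ = k * (Real.sqrt δ / 2 * σ) * Real.log (1 / σ) := by ring
    _ ≤ k * (Real.sqrt (δ / 2) * σ) * Real.log (1 / σ) := by gcongr

theorem edge_pos (d : ℕ) (k K δ s0 σ Es : ℝ) (hk : 0 < k) (hK : 0 < K) (hδ : 0 < δ)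
    (hδ1 : δ ≤ 1) (hσ : 0 < σ) (hσ1 : σ ≤ δ / 4)
    (hEs : |Es + Gd d * σ ^ 2| ≤ δ / 2 * σ ^ 2) (hp : Pkg d 1 k K σ Es)
    (hT : ∀ (L : ℕ) [NeZero L], σ ^ (-(3 / 2) : ℝ) ≤ L → (L : ℝ) ≤ σ ^ (-(7 / 4) : ℝ) →
        ∃ G : Set (T d L → ℝ), MeasurableSet G ∧
          1 - Real.exp (-(s0 * σ ^ (-(1 / 4) : ℝ))) ≤
            (Measure.pi fun _ : T d L => gaussianReal 0 1).real G ∧
          ∀ V ∈ G, ∃ (E0 : ℝ) (ψ : T d L → ℝ), |E0 + Gd d * σ ^ 2| ≤ δ / 2 * σ ^ 2 ∧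
            (∀ x, 1 ≤ ψ x ∧ ψ x ≤ 1 + δ / 2) ∧ ∀ x, Pool.Agent.H4R2.AE.Hop σ V ψ x = E0 * ψ x) :
    Edge d (Gd d) (k / 8) (K * 2 ^ ((d : ℝ) / 2)) δ s0 σ := by
  obtain ⟨-, hp2⟩ := hp
  have hσ2 : 0 < σ ^ 2 := by positivity
  have habs : |σ| = σ := abs_of_pos hσ
  rw [abs_le] at hEs
  unfold Edge
  rw [habs]
  refine ⟨?_, ?_, ?_⟩
  · -- localization
    obtain ⟨-, hloc⟩ := hp2 (δ / 2 * σ ^ 2) (by
      calc σ ^ 3 = σ * σ ^ 2 := by ring
        _ ≤ δ / 2 * σ ^ 2 := by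
            gcongr
            linarith) (by
      have : δ / 2 ≤ 2 := by linarith
      gcongr)
    obtain ⟨hr1, hr2⟩ := rate_le k δ σ hk hδ hδ1 hσ hσ1
    obtain ⟨m, hm⟩ : ∃ m, m = k / 8 * Real.sqrt δ * σ / Real.log (1 / σ) := ⟨_, rfl⟩
    rw [← hm] at hr1 hr2 ⊢
    have hA : ∀ᵐ ξ ∂(Measure.infinitePi fun _ : Fin d → ℤ => gaussianReal 0 1),
        Pool.Agent.H4R2.LO.Main.Dec d (-1) (fun x => σ * ξ x)
          (Set.Iic (-(2 * d + (Gd d + δ) * σ ^ 2))) m := by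
      filter_upwards [hloc] with ω hω
      refine Pool.Agent.H4R2.LO.Main.dec_mono _ _ _ _ _ _ hω ?_ hr1
      intro E hE
      have hE' : E ≤ -(2 * d + (Gd d + δ) * σ ^ 2) := hE
      show E ≤ Es - 2 * d - δ / 2 * σ ^ 2
      linarith
    have hB : ∀ᵐ ξ ∂(Measure.infinitePi fun _ : Fin d → ℤ => gaussianReal 0 1),
        Pool.Agent.H4R2.LO.Main.Dec d (-1) (fun x => σ * -ξ x)
          (Set.Iic (-(2 * d + (Gd d + δ) * σ ^ 2))) m := by
      have h3 := hA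
      rw [← law_neg d] at h3
      have hm2 : Measurable (fun (ω : (Fin d → ℤ) → ℝ) x => -ω x) := by fun_prop
      exact ae_of_ae_map hm2.aemeasurable h3
    filter_upwards [hA, hB] with ξ hξ hξ'
    apply localized_of σ ξ _ m hr2
    have e1 := Pool.Agent.H4R2.LO.Main.dec_stag _ _ _ m hξ
    have e2 := Pool.Agent.H4R2.LO.Main.dec_neg _ _ _ m hξ'
    simp only [neg_neg, mul_neg] at e1 e2
    refine Pool.Agent.H4R2.LO.Main.dec_mono _ _ _ _ _ _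
      (Pool.Agent.H4R2.LO.Main.dec_union _ _ _ _ m e1 e2) ?_ le_rfl
    intro E hE
    have hE' : 2 * d + (Gd d + δ) * σ ^ 2 ≤ |E| := hE
    rcases abs_cases E with ⟨h, _⟩ | ⟨h, _⟩
    · right
      show -E ≤ -(2 * d + (Gd d + δ) * σ ^ 2)
      linarith
    · left
      show E ≤ -(2 * d + (Gd d + δ) * σ ^ 2)
      linarith
  · -- spread out states
    obtain ⟨κ, hκ⟩ : ∃ κ : ℝ, κ = 2 * δ * σ ^ 2 := ⟨_, rfl⟩
    obtain ⟨⟨G, hG, hP, hG2⟩, -⟩ := hp2 κ (by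
      rw [hκ]
      calc σ ^ 3 = σ * σ ^ 2 := by ring
        _ ≤ 2 * δ * σ ^ 2 := by
            gcongr
            linarith) (by
      rw [hκ]
      have : 2 * δ ≤ 2 := by linarith
      gcongr)
    have hκ0 : 0 ≤ κ := by rw [hκ]; positivity
    have hrad : k / 8 * Real.sqrt δ / σ ≤ k * Real.sqrt κ / σ ^ 2 := by
      have h1 : Real.sqrt κ = Real.sqrt (2 * δ) * σ := by
        rw [hκ, Real.sqrt_mul (by positivity), Real.sqrt_sq hσ.le]
      have h2 : Real.sqrt δ ≤ Real.sqrt (2 * δ) := Real.sqrt_le_sqrt (by linarith)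
      have h3 : k * Real.sqrt κ / σ ^ 2 = k * Real.sqrt (2 * δ) / σ := by
        rw [h1]
        field_simp
      rw [h3]
      have h4 : k / 8 ≤ k := by linarith
      gcongr
    have hexp : Real.exp (-(k * Real.sqrt κ / σ ^ 2)) ≤ Real.exp (-(k / 8 * Real.sqrt δ / σ)) :=
      Real.exp_le_exp.2 (by linarith)
    have hm : Measurable (fun (ξ : (Fin d → ℤ) → ℝ) y => -ξ y) := by fun_prop
    refine ⟨G ∩ (fun ξ y => -ξ y) ⁻¹' G, hG.inter (hm hG), ?_, ?_⟩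
    · have hP2 : 1 - Real.exp (-(k * Real.sqrt κ / σ ^ 2)) / 2 ≤
          (Measure.infinitePi fun _ : Fin d → ℤ => gaussianReal 0 1).real
            ((fun ξ y => -ξ y) ⁻¹' G) := by
        have h1 : (Measure.infinitePi fun _ : Fin d → ℤ => gaussianReal 0 1).real
            ((fun ξ y => -ξ y) ⁻¹' G) =
            (Measure.infinitePi fun _ : Fin d → ℤ => gaussianReal 0 1).real G := by
          conv_rhs => rw [← law_neg d]
          rw [map_measureReal_apply hm hG]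
        rw [h1]
        exact hP
      have h2 := measureReal_union_add_inter (μ := Measure.infinitePi fun _ : Fin d → ℤ =>
        gaussianReal 0 1) (s := G) (t := (fun ξ y => -ξ y) ⁻¹' G) (hm hG)
      have h3 : (Measure.infinitePi fun _ : Fin d → ℤ => gaussianReal 0 1).real
          (G ∪ (fun ξ y => -ξ y) ⁻¹' G) ≤ 1 := measureReal_le_one
      linarith
    · intro ξ hξ E hE u hu hgen x hx
      have hx' : ‖x‖ ≤ Real.exp (k * Real.sqrt κ / σ ^ 2) := hx.trans (Real.exp_le_exp.2 hrad)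
      have hKK : K * κ ^ ((d : ℝ) / 2) = K * 2 ^ ((d : ℝ) / 2) * (δ * σ ^ 2) ^ ((d : ℝ) / 2) := by
        rw [hκ, mul_assoc 2 δ, Real.mul_rpow (by norm_num) (by positivity)]
        ring
      rw [← hKK]
      have hg : Pool.Agent.H4R2.LO.IsGen 1 (fun x => σ * ξ x) E u := by
        intro y
        rw [← H_eq]
        exact hgen y
      rcases le_or_gt 0 E with h0 | h0
      · rw [abs_of_nonneg h0] at hE
        have hg2 := Pool.Agent.H4R2.LO.Main.neg_gen 1 (fun x => σ * ξ x) E u hg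
        have e1 : (fun x => -(σ * ξ x)) = fun x => σ * (-ξ x) := by
          funext y; ring
        rw [e1] at hg2
        exact hG2 _ hξ.2 (-E) (by rw [hκ]; linarith) u hg2 hu x hx'
      · rw [abs_of_neg h0] at hE
        have hg2 := Pool.Agent.H4R2.LO.Main.stag 1 (fun x => σ * ξ x) E u hg
        have hn : ∀ y, ‖Pool.Agent.H4R2.LO.Main.sgn y * u y‖ = ‖u y‖ := fun y => by
          rw [norm_mul, Pool.Agent.H4R2.LO.Main.sgn_norm, one_mul]
        have h9 := hG2 _ hξ.1 E (by rw [hκ]; linarith) _ hg2 (by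
          unfold Pool.Agent.H4R2.LO.L2f
          simp only [hn]
          exact hu) x hx'
        simp only [hn] at h9
        exact h9
  · intro L _ hL1 hL2
    obtain ⟨G, hG, hP, hflat⟩ := hT L hL1 hL2
    have hm : Measurable (fun (ξ : T d L → ℝ) y => -ξ y) := by fun_prop
    refine ⟨(fun ξ y => -ξ y) ⁻¹' G, hm hG, ?_, fun ξ hξ => ?_⟩
    · have h1 : (Measure.pi fun _ : T d L => gaussianReal 0 1).real ((fun ξ y => -ξ y) ⁻¹' G) =
          (Measure.pi fun _ : T d L => gaussianReal 0 1).real G := by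
        conv_rhs => rw [← lawT_neg d L]
        rw [map_measureReal_apply hm hG]
      rw [h1]
      exact hP
    · obtain ⟨E0, ψ, h1, h2, h3⟩ := hflat _ hξ
      refine ⟨2 * d - E0, ψ, ?_, fun x => ⟨(h2 x).1, by linarith [(h2 x).2]⟩, fun x => ?_⟩
      · rw [abs_le] at h1 ⊢
        constructor <;> linarith
      · rw [HT_eq, h3 x]
        ring

theorem H_neg {d : ℕ} (σ : ℝ) (ξ : (Fin d → ℤ) → ℝ) : H σ ξ = H (-σ) (fun x => -ξ x) := by
  funext u x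
  unfold H
  push_cast
  ring

theorem edge_neg (d : ℕ) (g k K δ s0 σ : ℝ) (h : Edge d g k K δ s0 (-σ)) :
    Edge d g k K δ s0 σ := by
  obtain ⟨h1, ⟨G, hG, hP, hG2⟩, h3⟩ := h
  unfold Edge
  simp only [abs_neg, neg_sq] at h1 hP hG2 h3
  refine ⟨?_, ?_, ?_⟩
  · rw [← law_neg d] at h1
    have hm2 : Measurable (fun (ω : (Fin d → ℤ) → ℝ) x => -ω x) := by fun_prop
    filter_upwards [ae_of_ae_map hm2.aemeasurable h1] with ξ hξ
    rw [H_neg]
    exact hξ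
  · have hm : Measurable (fun (ξ : (Fin d → ℤ) → ℝ) y => -ξ y) := by fun_prop
    refine ⟨(fun ξ y => -ξ y) ⁻¹' G, hm hG, ?_, fun ξ hξ E hE => ?_⟩
    · have h4 : (Measure.infinitePi fun _ : Fin d → ℤ => gaussianReal 0 1).real
          ((fun ξ y => -ξ y) ⁻¹' G) =
          (Measure.infinitePi fun _ : Fin d → ℤ => gaussianReal 0 1).real G := by
        conv_rhs => rw [← law_neg d]
        rw [map_measureReal_apply hm hG]
      rw [h4]
      exact hP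
    · have h5 := hG2 _ hξ E hE
      intro u hu hgen x hx
      refine h5 u hu (fun y => ?_) x hx
      rw [← H_neg]
      exact hgen y
  · intro L _ hL1 hL2
    obtain ⟨G, hG, hP, hflat⟩ := h3 L hL1 hL2
    have hm : Measurable (fun (ξ : T d L → ℝ) y => -ξ y) := by fun_prop
    refine ⟨(fun ξ y => -ξ y) ⁻¹' G, hm hG, ?_, fun ξ hξ => ?_⟩
    · have h1 : (Measure.pi fun _ : T d L => gaussianReal 0 1).real ((fun ξ y => -ξ y) ⁻¹' G) =
          (Measure.pi fun _ : T d L => gaussianReal 0 1).real G := by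
        conv_rhs => rw [← lawT_neg d L]
        rw [map_measureReal_apply hm hG]
      rw [h1]
      exact hP
    · obtain ⟨E, ψ, h1, h2, h3⟩ := hflat _ hξ
      refine ⟨E, ψ, h1, h2, fun x => ?_⟩
      rw [← h3 x]
      unfold HT
      ring

/-- **the location of the effective band edge** -/
theorem main (d : ℕ) (hd : 3 ≤ d) : 0 < Gd d ∧ ∃ k K : ℝ, 0 < k ∧ 0 < K ∧
    ∀ δ : ℝ, 0 < δ → δ ≤ 1 → ∃ s0 : ℝ, 0 < s0 ∧ ∀ σ : ℝ, 0 < |σ| → |σ| ≤ s0 →
      Edge d (Gd d) k K δ s0 σ := by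
  refine ⟨Gd_pos d hd, ?_⟩
  obtain ⟨k, K, hk, hK, h⟩ := es_asymp d hd
  refine ⟨k / 8, K * 2 ^ ((d : ℝ) / 2), by positivity, by positivity, fun δ hδ hδ1 => ?_⟩
  obtain ⟨s0, hs0, hs01, h2⟩ := h (δ / 2) (by positivity) (by linarith)
  obtain ⟨s1, hs1⟩ : ∃ s1 : ℝ, s1 = min s0 (δ / 4) := ⟨_, rfl⟩
  have hs10 : 0 < s1 := by rw [hs1]; positivity
  have hs1a : s1 ≤ s0 := by rw [hs1]; exact min_le_left _ _
  have hs1b : s1 ≤ δ / 4 := by rw [hs1]; exact min_le_right _ _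
  refine ⟨s1, hs10, fun σ hσ hσ1 => ?_⟩
  have key : ∀ τ : ℝ, 0 < τ → τ ≤ s1 → Edge d (Gd d) (k / 8) (K * 2 ^ ((d : ℝ) / 2)) δ s1 τ := by
    intro τ hτ hτ1
    obtain ⟨⟨Es, hEs, hp⟩, hT⟩ := h2 τ hτ (hτ1.trans hs1a)
    refine edge_pos d k K δ s1 τ Es hk hK hδ hδ1 hτ (hτ1.trans hs1b) hEs hp ?_
    intro L _ hL1 hL2
    obtain ⟨G, hG, hP, hF⟩ := hT L hL1 hL2
    refine ⟨G, hG, ?_, hF⟩
    refine le_trans ?_ hP
    have h5 : Real.exp (-(s0 * τ ^ (-(1 / 4) : ℝ))) ≤ Real.exp (-(s1 * τ ^ (-(1 / 4) : ℝ))) := by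
      apply Real.exp_le_exp.2
      have h6 : 0 ≤ τ ^ (-(1 / 4) : ℝ) := Real.rpow_nonneg hτ.le _
      have := mul_le_mul_of_nonneg_right hs1a h6
      linarith
    linarith
  rcases lt_or_ge 0 σ with h0 | h0
  · rw [abs_of_pos h0] at hσ1
    exact key σ h0 hσ1
  · rw [abs_of_nonpos h0] at hσ hσ1
    exact edge_neg d _ _ _ _ _ σ (key (-σ) hσ hσ1)

end Pool.Agent.Y661.ED
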