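import Pool.Agent.H4R2.AE.Gs

/-! The energy of a flat ground state on a torus: upper and lower bounds by a quadratic form of the
potential. -/

set_option autoImplicit false
set_option linter.unusedSectionVars false

open scoped BigOperators

namespace Pool.Agent.Y661.ED

open Pool.Agent.H4R2.AE Pool.Agent.H4R2.AE.Lin

variable {d L : ℕ} [NeZero L]

/-- the Dirichlet form -/
noncomputable def DF (f g : T d L → ℝ) : ℝ :=
  ∑ x, ∑ i : Fin d, (f x - f (x + Pi.single i 1)) * (g x - g (x + Pi.single i 1))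

theorem df_lap (f g : T d L → ℝ) : ∑ x, f x * LapW (fun _ => 1) g x = DF f g := by
  rw [bilin]
  unfold DF
  exact Finset.sum_congr rfl fun x _ => Finset.sum_congr rfl fun i _ => by ring

theorem df_nonneg (f : T d L → ℝ) : 0 ≤ DF f f :=
  Finset.sum_nonneg fun x _ => Finset.sum_nonneg fun i _ => mul_self_nonneg _

theorem df_cs (f g : T d L → ℝ) : DF f g ^ 2 ≤ DF f f * DF g g := by
  unfold DF
  rw [← Finset.sum_product', ← Finset.sum_product', ← Finset.sum_product']
  have h := Finset.sum_mul_sq_le_sq_mul_sq (Finset.univ ×ˢ Finset.univ)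
    (fun p : T d L × Fin d => f p.1 - f (p.1 + Pi.single p.2 1))
    (fun p : T d L × Fin d => g p.1 - g (p.1 + Pi.single p.2 1))
  simp only [sq] at h ⊢
  exact h

theorem hop_lap (lam : ℝ) (V f : T d L → ℝ) (x : T d L) :
    Hop lam V f x = LapW (fun _ => 1) f x + lam * V x * f x := by
  unfold Hop LapW
  congr 1
  exact Finset.sum_congr rfl fun i _ => by ring

/-- the number of sites -/
noncomputable def NN (d L : ℕ) [NeZero L] : ℝ := ∑ _x : T d L, (1 : ℝ)

theorem NN_pos : 0 < NN d L := by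
  unfold NN
  simp only [Finset.sum_const, nsmul_eq_mul, mul_one]
  exact_mod_cast Finset.card_pos.2 ⟨0, Finset.mem_univ _⟩

section

variable (lam t η E0 : ℝ) (V ψ g : T d L → ℝ)

theorem g_sum (hg : ∀ x, LapW (fun _ => 1) g x + t * g x = V x) :
    t * ∑ x, g x = ∑ x, V x := by
  have h1 : ∑ x, (LapW (fun _ => 1) g x + t * g x) = ∑ x, V x :=
    Finset.sum_congr rfl fun x _ => hg x
  rw [Finset.sum_add_distrib, sum_lapW, zero_add, ← Finset.mul_sum] at h1
  exact h1

theorem g_energy (hg : ∀ x, LapW (fun _ => 1) g x + t * g x = V x) :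
    DF g g + t * ∑ x, g x ^ 2 = ∑ x, V x * g x := by
  rw [← df_lap, Finset.mul_sum, ← Finset.sum_add_distrib]
  refine Finset.sum_congr rfl fun x _ => ?_
  rw [← hg x]
  ring

/-- the energy of a flat positive eigenfunction, from above -/
theorem upper (hlam : 0 < lam) (ht : 0 < t) (hη : 0 ≤ η) (h1 : ∀ x, 1 ≤ ψ x)
    (h2 : ∀ x, ψ x ≤ 1 + η) (hψ : ∀ x, Hop lam V ψ x = E0 * ψ x)
    (hg : ∀ x, LapW (fun _ => 1) g x + t * g x = V x) (Γ v : ℝ) (hΓ : ∑ x, V x * g x = NN d L * Γ)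
    (hv : |∑ x, V x| ≤ NN d L * v) (hE : E0 ≤ 0) :
    -E0 / lam ≤ (1 + η) * Real.sqrt ((-E0 + lam * v) * Γ) + v + η * Real.sqrt (t * Γ) := by
  obtain ⟨N, hN⟩ : ∃ N, N = NN d L := ⟨_, rfl⟩
  have hN0 : 0 < N := by rw [hN]; exact NN_pos
  have hNs : ∑ _x : T d L, (1 : ℝ) = N := by rw [hN]; rfl
  obtain ⟨μ, hμ⟩ : ∃ μ, μ = -E0 := ⟨_, rfl⟩
  have hμ0 : 0 ≤ μ := by linarith
  rw [← hN] at hΓ hv
  rw [← hμ]
  have hv0 : 0 ≤ v := by
    have := abs_nonneg (∑ x, V x)
    by_contra hcon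
    push Not at hcon
    have : N * v < 0 := mul_neg_of_pos_of_neg hN0 hcon
    linarith
  have hlap : ∀ x, LapW (fun _ => 1) ψ x = -((μ + lam * V x) * ψ x) := by
    intro x
    have h3 := hψ x
    rw [hop_lap] at h3
    rw [hμ]
    linarith
  have hen := g_energy t V g hg
  have hdfg0 := df_nonneg g
  have hg2 : 0 ≤ ∑ x, g x ^ 2 := Finset.sum_nonneg fun x _ => sq_nonneg _
  have hΓ0 : 0 ≤ Γ := by
    have h4 : 0 ≤ N * Γ := by rw [← hΓ, ← hen]; positivity
    exact nonneg_of_mul_nonneg_right h4 hN0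
  -- (i)
  have i1 : μ * ∑ x, ψ x = -(lam * ∑ x, V x * ψ x) := by
    have h3 : ∑ x, LapW (fun _ => 1) ψ x = 0 := sum_lapW _ _
    rw [Finset.sum_congr rfl fun x _ => hlap x] at h3
    rw [Finset.mul_sum, Finset.mul_sum, ← Finset.sum_neg_distrib]
    rw [← sub_eq_zero, ← Finset.sum_sub_distrib]
    rw [← neg_eq_zero, ← Finset.sum_neg_distrib] at h3
    refine Eq.trans (Finset.sum_congr rfl fun x _ => ?_) h3
    ring
  -- (ii)
  have i2 : DF ψ g = ∑ x, V x * ψ x - t * ∑ x, ψ x * g x := by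
    rw [← df_lap, Finset.mul_sum, ← Finset.sum_sub_distrib]
    refine Finset.sum_congr rfl fun x _ => ?_
    rw [← hg x]
    ring
  -- (iii)
  have i3 : DF g g ≤ N * Γ := by
    rw [← hΓ, ← hen]
    have : 0 ≤ t * ∑ x, g x ^ 2 := by positivity
    linarith
  -- (iv)
  have hψ0 : ∀ x, 0 < ψ x := fun x => lt_of_lt_of_le one_pos (h1 x)
  have i4 : DF ψ ψ ≤ (1 + η) ^ 2 * (μ * N + lam * ∑ x, V x) := by
    have h3 : DF (fun x => (ψ x)⁻¹) ψ = -(μ * N + lam * ∑ x, V x) := by
      rw [← df_lap, ← hNs, Finset.mul_sum, Finset.mul_sum, ← Finset.sum_add_distrib,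
        ← Finset.sum_neg_distrib]
      refine Finset.sum_congr rfl fun x _ => ?_
      rw [hlap x]
      have := (hψ0 x).ne'
      field_simp
    have h4 : DF ψ ψ ≤ (1 + η) ^ 2 * -DF (fun x => (ψ x)⁻¹) ψ := by
      unfold DF
      rw [← Finset.sum_neg_distrib, Finset.mul_sum]
      refine Finset.sum_le_sum fun x _ => ?_
      rw [← Finset.sum_neg_distrib, Finset.mul_sum]
      refine Finset.sum_le_sum fun i _ => ?_
      beta_reduce
      obtain ⟨a, ha⟩ : ∃ a, a = ψ x := ⟨_, rfl⟩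
      obtain ⟨b, hb⟩ : ∃ b, b = ψ (x + Pi.single i 1) := ⟨_, rfl⟩
      rw [← ha, ← hb]
      have ha0 : 0 < a := by rw [ha]; exact hψ0 x
      have hb0 : 0 < b := by rw [hb]; exact hψ0 _
      have ha1 : a ≤ 1 + η := by rw [ha]; exact h2 x
      have hb1 : b ≤ 1 + η := by rw [hb]; exact h2 _
      have e1 : -((a⁻¹ - b⁻¹) * (a - b)) = (a - b) ^ 2 / (a * b) := by
        field_simp
        ring
      rw [e1, ← mul_div_assoc, le_div_iff₀ (by positivity)]
      have e2 : a * b ≤ (1 + η) ^ 2 := by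
        calc a * b ≤ (1 + η) * (1 + η) := by gcongr
          _ = _ := by ring
      calc (a - b) * (a - b) * (a * b) = a * b * (a - b) ^ 2 := by ring
        _ ≤ (1 + η) ^ 2 * (a - b) ^ 2 := by gcongr
    rw [h3, neg_neg] at h4
    exact h4
  have i4' : DF ψ ψ ≤ (1 + η) ^ 2 * (N * (μ + lam * v)) := by
    refine i4.trans ?_
    have h3 : ∑ x, V x ≤ N * v := (le_abs_self _).trans hv
    have h4 : lam * ∑ x, V x ≤ lam * (N * v) := by gcongr
    calc (1 + η) ^ 2 * (μ * N + lam * ∑ x, V x) ≤ (1 + η) ^ 2 * (μ * N + lam * (N * v)) := by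
          gcongr
      _ = _ := by ring
  -- (v)
  have i5 : |DF ψ g| ≤ (1 + η) * (N * Real.sqrt ((μ + lam * v) * Γ)) := by
    have h3 := df_cs ψ g
    have h4 : DF ψ ψ * DF g g ≤ (1 + η) ^ 2 * (N * (μ + lam * v)) * (N * Γ) := by
      have := df_nonneg ψ
      gcongr
    have hs0 : 0 ≤ (μ + lam * v) * Γ := by positivity
    apply abs_le_of_sq_le_sq (h := _) (by positivity)
    calc DF ψ g ^ 2 ≤ (1 + η) ^ 2 * (N * (μ + lam * v)) * (N * Γ) := h3.trans h4
      _ = (1 + η) ^ 2 * (N ^ 2 * ((μ + lam * v) * Γ)) := by ring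
      _ = ((1 + η) * (N * Real.sqrt ((μ + lam * v) * Γ))) ^ 2 := by
          rw [mul_pow, mul_pow, Real.sq_sqrt hs0]
  have i6 : |t * ∑ x, (ψ x - 1) * g x| ≤ η * (N * Real.sqrt (t * Γ)) := by
    have h3 : (∑ x, (ψ x - 1) * g x) ^ 2 ≤ (∑ x, (ψ x - 1) ^ 2) * ∑ x, g x ^ 2 :=
      Finset.sum_mul_sq_le_sq_mul_sq _ _ _
    have h4 : ∑ x, (ψ x - 1) ^ 2 ≤ η ^ 2 * N := by
      rw [← hNs, Finset.mul_sum]
      refine Finset.sum_le_sum fun x _ => ?_
      rw [mul_one]
      have h5 := h1 x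
      have h6 := h2 x
      exact pow_le_pow_left₀ (by linarith) (by linarith) 2
    have h5 : t * ∑ x, g x ^ 2 ≤ N * Γ := by
      rw [← hΓ, ← hen]
      linarith
    have htΓ : 0 ≤ t * Γ := by positivity
    apply abs_le_of_sq_le_sq (h := _) (by positivity)
    calc (t * ∑ x, (ψ x - 1) * g x) ^ 2 = t ^ 2 * (∑ x, (ψ x - 1) * g x) ^ 2 := by ring
      _ ≤ t ^ 2 * ((η ^ 2 * N) * ∑ x, g x ^ 2) := by
          apply mul_le_mul_of_nonneg_left _ (by positivity)
          exact h3.trans (mul_le_mul_of_nonneg_right h4 hg2)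
      _ = t * (η ^ 2 * N) * (t * ∑ x, g x ^ 2) := by ring
      _ ≤ t * (η ^ 2 * N) * (N * Γ) := by gcongr
      _ = η ^ 2 * (N ^ 2 * (t * Γ)) := by ring
      _ = (η * (N * Real.sqrt (t * Γ))) ^ 2 := by
          rw [mul_pow, mul_pow, Real.sq_sqrt htΓ]
  have hgs := g_sum t V g hg
  have hsplit : ∑ x, ψ x * g x = ∑ x, g x + ∑ x, (ψ x - 1) * g x := by
    rw [← Finset.sum_add_distrib]
    exact Finset.sum_congr rfl fun x _ => by ring
  have h7 : μ / lam * ∑ x, ψ x = -DF ψ g - ∑ x, V x - t * ∑ x, (ψ x - 1) * g x := by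
    have h8 : μ / lam * ∑ x, ψ x = -∑ x, V x * ψ x := by
      rw [div_mul_eq_mul_div, i1]
      field_simp
    rw [h8]
    rw [hsplit, mul_add, hgs] at i2
    linarith
  have h9 : N ≤ ∑ x, ψ x := by
    rw [← hNs]
    exact Finset.sum_le_sum fun x _ => h1 x
  have h10 : μ / lam * N ≤ (1 + η) * (N * Real.sqrt ((μ + lam * v) * Γ)) + N * v +
      η * (N * Real.sqrt (t * Γ)) := by
    calc μ / lam * N ≤ μ / lam * ∑ x, ψ x := by gcongr
      _ = -DF ψ g - ∑ x, V x - t * ∑ x, (ψ x - 1) * g x := h7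
      _ ≤ |DF ψ g| + |∑ x, V x| + |t * ∑ x, (ψ x - 1) * g x| := by
          have a1 := neg_abs_le (DF ψ g)
          have a2 := neg_abs_le (∑ x, V x)
          have a3 := neg_abs_le (t * ∑ x, (ψ x - 1) * g x)
          linarith
      _ ≤ _ := by linarith
  have h11 : μ / lam * N ≤ ((1 + η) * Real.sqrt ((μ + lam * v) * Γ) + v +
      η * Real.sqrt (t * Γ)) * N := by
    refine h10.trans (le_of_eq ?_)
    ring
  exact le_of_mul_le_mul_right h11 hN0

/-- the variational principle for a positive eigenfunction -/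
theorem variational (h1 : ∀ x, 0 < ψ x) (hψ : ∀ x, Hop lam V ψ x = E0 * ψ x) (f : T d L → ℝ) :
    E0 * ∑ x, f x ^ 2 ≤ ∑ x, f x * Hop lam V f x := by
  have h2 : 0 ≤ ∑ x, (f x / ψ x) * LapW ψ (fun y => f y / ψ y) x := by
    rw [bilin]
    refine Finset.sum_nonneg fun x _ => Finset.sum_nonneg fun i _ => ?_
    exact mul_nonneg (mul_pos (h1 _) (h1 _)).le (mul_self_nonneg _)
  have h3 : ∑ x, (f x / ψ x) * LapW ψ (fun y => f y / ψ y) x =
      ∑ x, f x * Hop lam V f x - E0 * ∑ x, f x ^ 2 := by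
    rw [Finset.mul_sum, ← Finset.sum_sub_distrib]
    refine Finset.sum_congr rfl fun x _ => ?_
    rw [Gs.lapW_hop lam V, hψ x]
    have e1 : (fun y => ψ y * (f y / ψ y)) = f := by
      funext y
      have := (h1 y).ne'
      field_simp
    rw [e1]
    have := (h1 x).ne'
    field_simp
  linarith

/-- the energy of a positive eigenfunction, from below -/
theorem lower (hlam : 0 < lam) (ht : 0 < t) (h1 : ∀ x, 0 < ψ x)
    (hψ : ∀ x, Hop lam V ψ x = E0 * ψ x)
    (hg : ∀ x, LapW (fun _ => 1) g x + t * g x = V x) (Γ v b : ℝ)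
    (hΓ : ∑ x, V x * g x = NN d L * Γ)
    (hv : |∑ x, V x| ≤ NN d L * v) (hb : ∀ x, |V x| ≤ b)
    (hpos : 0 ≤ lam ^ 2 * Γ - lam ^ 3 * b * Γ / t - lam * v) :
    lam ^ 2 * Γ - lam ^ 3 * b * Γ / t - lam * v ≤
      -E0 * (1 + 2 * lam * v / t + lam ^ 2 * Γ / t) := by
  obtain ⟨N, hN⟩ : ∃ N, N = NN d L := ⟨_, rfl⟩
  have hN0 : 0 < N := by rw [hN]; exact NN_pos
  have hNs : ∑ _x : T d L, (1 : ℝ) = N := by rw [hN]; rfl
  rw [← hN] at hΓ hv
  have hen := g_energy t V g hg
  have hdfg0 := df_nonneg g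
  have hg2 : 0 ≤ ∑ x, g x ^ 2 := Finset.sum_nonneg fun x _ => sq_nonneg _
  have hgs := g_sum t V g hg
  have hb0 : 0 ≤ b := (abs_nonneg (V 0)).trans (hb 0)
  have htg : t * ∑ x, g x ^ 2 ≤ N * Γ := by
    rw [← hΓ, ← hen]
    linarith
  have hg3 : ∑ x, g x ^ 2 ≤ N * Γ / t := by
    rw [le_div_iff₀ ht]
    linarith
  have hvar := variational lam E0 V ψ h1 hψ (fun x => 1 - lam * g x)
  have hH : ∀ x, Hop lam V (fun x => 1 - lam * g x) x = lam * t * g x - lam ^ 2 * (V x * g x) := by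
    intro x
    rw [hop_lap]
    have e1 : LapW (fun _ => (1 : ℝ)) (fun x => 1 - lam * g x) x = -lam * LapW (fun _ => 1) g x := by
      have e2 : (fun x => 1 - lam * g x) = fun y => (fun _ : T d L => (1 : ℝ)) y +
        (fun y => (-lam) * g y) y := by
        funext y
        ring
      rw [e2, lapW_add, lapW_const, lapW_smul, zero_add]
    rw [e1]
    have h3 := hg x
    have h4 : LapW (fun _ => 1) g x = V x - t * g x := by linarith
    rw [h4]
    ring
  have hsum : ∑ x, (1 - lam * g x) * Hop lam V (fun x => 1 - lam * g x) x =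
      lam * ∑ x, V x - lam ^ 2 * (N * Γ) - lam ^ 2 * (t * ∑ x, g x ^ 2) +
        lam ^ 3 * ∑ x, V x * g x ^ 2 := by
    rw [← hΓ, ← hgs]
    simp only [Finset.mul_sum]
    rw [← Finset.sum_sub_distrib, ← Finset.sum_sub_distrib, ← Finset.sum_add_distrib]
    refine Finset.sum_congr rfl fun x _ => ?_
    rw [hH x]
    ring
  have hnorm : ∑ x, (1 - lam * g x) ^ 2 = N - 2 * lam * ∑ x, g x + lam ^ 2 * ∑ x, g x ^ 2 := by
    rw [← hNs]
    simp only [Finset.mul_sum]
    rw [← Finset.sum_sub_distrib, ← Finset.sum_add_distrib]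
    exact Finset.sum_congr rfl fun x _ => by ring
  rw [hsum] at hvar
  have hVg : ∑ x, V x * g x ^ 2 ≤ b * (N * Γ / t) := by
    calc ∑ x, V x * g x ^ 2 ≤ ∑ x, b * g x ^ 2 := by
          refine Finset.sum_le_sum fun x _ => ?_
          exact mul_le_mul_of_nonneg_right ((le_abs_self _).trans (hb x)) (sq_nonneg _)
      _ = b * ∑ x, g x ^ 2 := by rw [Finset.mul_sum]
      _ ≤ _ := by gcongr
  have hV1 : ∑ x, V x ≤ N * v := (le_abs_self _).trans hv
  have hV2 : -(N * v) ≤ ∑ x, V x := by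
    have := neg_abs_le (∑ x, V x)
    linarith
  have hS : N * (lam ^ 2 * Γ - lam ^ 3 * b * Γ / t - lam * v) ≤
      -E0 * ∑ x, (1 - lam * g x) ^ 2 := by
    have a1 : lam * ∑ x, V x ≤ lam * (N * v) := by gcongr
    have a2 : lam ^ 3 * ∑ x, V x * g x ^ 2 ≤ lam ^ 3 * (b * (N * Γ / t)) := by gcongr
    have a3 : 0 ≤ lam ^ 2 * (t * ∑ x, g x ^ 2) := by positivity
    have e1 : N * (lam ^ 2 * Γ - lam ^ 3 * b * Γ / t - lam * v) =
      lam ^ 2 * (N * Γ) - lam ^ 3 * (b * (N * Γ / t)) - lam * (N * v) := by ring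
    rw [e1]
    linarith
  have hpos' : 0 ≤ N * (lam ^ 2 * Γ - lam ^ 3 * b * Γ / t - lam * v) := by positivity
  have hn0 : 0 ≤ ∑ x, (1 - lam * g x) ^ 2 := Finset.sum_nonneg fun x _ => sq_nonneg _
  have hnb : ∑ x, (1 - lam * g x) ^ 2 ≤ N * (1 + 2 * lam * v / t + lam ^ 2 * Γ / t) := by
    rw [hnorm]
    have a1 : -(2 * lam * ∑ x, g x) ≤ 2 * lam * (N * v / t) := by
      have a2 : -(N * v / t) ≤ ∑ x, g x := by
        rw [← neg_div, div_le_iff₀ ht]
        linarith
      have := mul_le_mul_of_nonneg_left a2 (show 0 ≤ 2 * lam by positivity)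
      linarith
    have a3 : lam ^ 2 * ∑ x, g x ^ 2 ≤ lam ^ 2 * (N * Γ / t) := by gcongr
    have e1 : N * (1 + 2 * lam * v / t + lam ^ 2 * Γ / t) =
      N + 2 * lam * (N * v / t) + lam ^ 2 * (N * Γ / t) := by ring
    rw [e1]
    linarith
  rcases le_or_gt 0 (-E0) with hE | hE
  · have h5 : -E0 * ∑ x, (1 - lam * g x) ^ 2 ≤
        -E0 * (N * (1 + 2 * lam * v / t + lam ^ 2 * Γ / t)) := by gcongr
    have h6 : (lam ^ 2 * Γ - lam ^ 3 * b * Γ / t - lam * v) * N ≤
        (-E0 * (1 + 2 * lam * v / t + lam ^ 2 * Γ / t)) * N := by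
      calc _ = N * (lam ^ 2 * Γ - lam ^ 3 * b * Γ / t - lam * v) := by ring
        _ ≤ _ := hS.trans h5
        _ = _ := by ring
    exact le_of_mul_le_mul_right h6 hN0
  · -- then the left-hand side is zero and the sum of squares vanishes
    have h5 : -E0 * ∑ x, (1 - lam * g x) ^ 2 ≤ 0 := mul_nonpos_of_nonpos_of_nonneg hE.le hn0
    have h6 : lam ^ 2 * Γ - lam ^ 3 * b * Γ / t - lam * v = 0 := by
      have h7 : N * (lam ^ 2 * Γ - lam ^ 3 * b * Γ / t - lam * v) = 0 := by linarith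
      rcases mul_eq_zero.1 h7 with h | h
      · exact absurd h hN0.ne'
      · exact h
    have h7 : -E0 * ∑ x, (1 - lam * g x) ^ 2 = 0 := by
      rw [h6, mul_zero] at hS
      linarith
    have h8 : ∑ x, (1 - lam * g x) ^ 2 = 0 := by
      rcases mul_eq_zero.1 h7 with h | h
      · exact absurd h hE.ne
      · exact h
    have h9 : N ≤ 0 := by
      have e1 : ∀ x, lam * g x = 1 := by
        intro x
        have := (Finset.sum_eq_zero_iff_of_nonneg fun x _ => sq_nonneg (1 - lam * g x)).1 h8 x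
          (Finset.mem_univ x)
        have := pow_eq_zero_iff (two_ne_zero) |>.1 this
        linarith
      -- `g` is constant, so `V = t / lam` is constant
      have e2 : ∀ x, g x = lam⁻¹ := fun x => by
        have := e1 x
        field_simp
        linarith
      have e3 : ∀ x, V x = t * lam⁻¹ := fun x => by
        rw [← hg x, e2 x]
        have : LapW (fun _ => 1) g x = 0 := by
          have e4 : g = fun _ => lam⁻¹ := funext e2
          rw [e4, lapW_const]
        rw [this, zero_add]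
      have e4 : N * (t * lam⁻¹) ≤ N * v := by
        have : ∑ x, V x = N * (t * lam⁻¹) := by
          rw [← hNs, Finset.sum_mul]
          exact Finset.sum_congr rfl fun x _ => by rw [e3 x]; ring
        rw [← this]
        exact hV1
      have e5 : N * (t * lam⁻¹ * lam⁻¹) = N * Γ := by
        rw [← hΓ, ← hNs, Finset.sum_mul]
        refine Finset.sum_congr rfl fun x _ => ?_
        rw [e3 x, e2 x]
        ring
      have e6 : Γ = t * lam⁻¹ * lam⁻¹ := (mul_left_cancel₀ hN0.ne' e5).symm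
      have e7 : t * lam⁻¹ ≤ v := le_of_mul_le_mul_left e4 hN0
      have e8 : t * lam⁻¹ ≤ b := by
        rw [← e3 0]
        exact (le_abs_self _).trans (hb 0)
      exfalso
      have e9 : lam ^ 2 * Γ = t := by
        rw [e6]
        field_simp
      have e10 : t ≤ lam * v := by
        have := mul_le_mul_of_nonneg_left e7 hlam.le
        have e11 : lam * (t * lam⁻¹) = t := by field_simp
        linarith
      have e12 : 0 < lam ^ 3 * b * Γ / t := by
        have hbp : 0 < b := lt_of_lt_of_le (by positivity) e8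
        have hΓp : 0 < Γ := by rw [e6]; positivity
        positivity
      linarith
    linarith

end

end Pool.Agent.Y661.ED
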