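import Pool.Agent.Y661.ED.Prob

/-! The energy of a flat state on the good event. -/

set_option autoImplicit false
set_option linter.unusedSectionVars false

open scoped BigOperators Topology
open MeasureTheory ProbabilityTheory Set Filter

namespace Pool.Agent.Y661.ED

open Pool.Agent.W788.MFP.Gm (γ Γ)
open Pool.Agent.W788.MFP
open Pool.Agent.H4R2.AE Pool.Agent.H4R2.AE.Lin

theorem P1_ge (s : ℝ) (hs : 0 ≤ s) : Real.exp (-4 * s) ≤ P1 s := by
  unfold P1
  have h1 : ∫ _x in (0 : ℝ)..1, Real.exp (-4 * s) = Real.exp (-4 * s) := by simp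
  rw [← h1]
  have := om_cont
  apply intervalIntegral.integral_mono_on (by norm_num) (by simp)
    (Continuous.intervalIntegrable (by fun_prop) _ _)
  intro x _
  apply Real.exp_le_exp.2
  have := mul_le_mul_of_nonneg_left (om_le x) hs
  linarith

theorem Gd_pos (d : ℕ) (hd : 3 ≤ d) : 0 < Gd d := by
  rw [Gd_eq d (by omega)]
  have hPc := P1_cont
  have hP0 := P1_nonneg
  have hint : IntegrableOn (fun s : ℝ => P1 s ^ d) (Ioi 0) := by
    have hsp : Ioi (0 : ℝ) = Ioc 0 1 ∪ Ioi 1 := (Ioc_union_Ioi_eq_Ioi zero_le_one).symm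
    have hc2 : Continuous fun s : ℝ => P1 s ^ d := by fun_prop
    rw [hsp]
    refine IntegrableOn.union ((hc2.integrableOn_Icc).mono_set Ioc_subset_Icc_self) ?_
    refine Integrable.mono' (tail_int 1 one_pos).1 hc2.aestronglyMeasurable ?_
    filter_upwards [ae_restrict_mem measurableSet_Ioi] with s hs
    have hs1 : 1 < s := hs
    rw [Real.norm_eq_abs, abs_of_nonneg (pow_nonneg (hP0 s) d)]
    exact (pow_le_pow_left₀ (hP0 s) (P1_le s (by linarith)) d).trans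
      (sqrt_pow_le d hd s hs1.le)
  have hd0 : (0 : ℝ) < d := by
    have : (3 : ℝ) ≤ d := by exact_mod_cast hd
    linarith
  have hexp : IntegrableOn (fun s : ℝ => Real.exp ((-4 * d) * s)) (Ioi 0) :=
    integrableOn_exp_mul_Ioi (by linarith) 0
  have h1 : ∫ s in Ioi (0 : ℝ), Real.exp ((-4 * d) * s) ≤ ∫ s in Ioi (0 : ℝ), P1 s ^ d := by
    refine setIntegral_mono_on hexp hint measurableSet_Ioi fun s hs => ?_
    have hs0 : (0 : ℝ) < s := hs
    have h2 : Real.exp ((-4 * d) * s) = Real.exp (-4 * s) ^ d := by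
      rw [← Real.exp_nat_mul]
      congr 1
      ring
    rw [h2]
    exact pow_le_pow_left₀ (Real.exp_pos _).le (P1_ge s hs0.le) d
  refine lt_of_lt_of_le ?_ h1
  rw [integral_exp_mul_Ioi (by linarith), mul_zero, Real.exp_zero]
  rw [show (-1 : ℝ) / (-4 * d) = 1 / (4 * d) by rw [neg_mul, neg_div_neg_eq]]
  positivity

/-- the energy of a flat state on the good event -/
theorem energy (d : ℕ) (hd : 3 ≤ d) (δ : ℝ) (hδ : 0 < δ) :
    ∃ η b0 : ℝ, 0 < η ∧ η ≤ 1 ∧ 1 ≤ b0 ∧ ∀ b : ℝ, b0 ≤ b → ∀ (L : ℕ) [NeZero L], b ^ 6 ≤ L →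
      (L : ℝ) ≤ 2 * b ^ 6 → ∃ Bad : Set (T d L → ℝ), (Γ (T d L)).real Bad ≤ 1 / 4 ∧
        ∀ V, V ∉ Bad → ∀ (E0 : ℝ) (ψ : T d L → ℝ), (∀ x, 1 ≤ ψ x) → (∀ x, ψ x ≤ 1 + η) →
          (∀ x, Hop ((b ^ 4)⁻¹) V ψ x = E0 * ψ x) →
          |-E0 - Gd d * ((b ^ 4)⁻¹) ^ 2| ≤ δ * ((b ^ 4)⁻¹) ^ 2 := by
  have hG := Gd_pos d hd
  obtain ⟨G, hGG⟩ : ∃ G, G = Gd d := ⟨_, rfl⟩
  rw [← hGG] at hG ⊢
  obtain ⟨η, hη⟩ : ∃ η, η = min (δ / (4 * (G + δ + 8))) (min (G / 4) (1 / 4)) := ⟨_, rfl⟩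
  have hη0 : 0 < η := by rw [hη]; positivity
  have hη1 : η ≤ δ / (4 * (G + δ + 8)) := by rw [hη]; exact min_le_left _ _
  have hη2 : η ≤ G / 4 := by rw [hη]; exact (min_le_right _ _).trans (min_le_left _ _)
  have hη3 : η ≤ 1 / 4 := by rw [hη]; exact (min_le_right _ _).trans (min_le_right _ _)
  rw [le_div_iff₀ (by positivity)] at hη1
  obtain ⟨t0, b0, ht0, hb01, hprob⟩ := good_prob d hd η hη0
  refine ⟨η, max b0 (max (1 / (t0 * η)) ((G + 1) / (t0 * η))), hη0, by linarith,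
    hb01.trans (le_max_left _ _), ?_⟩
  intro b hb L _ hL1 hL2
  have hbb0 : b0 ≤ b := (le_max_left _ _).trans hb
  have hbb1 : 1 / (t0 * η) ≤ b := ((le_max_left _ _).trans (le_max_right _ _)).trans hb
  have hbb2 : (G + 1) / (t0 * η) ≤ b := ((le_max_right _ _).trans (le_max_right _ _)).trans hb
  have hb1 : 1 ≤ b := hb01.trans hbb0
  have hb0' : 0 < b := by linarith
  rw [div_le_iff₀ (by positivity)] at hbb1 hbb2
  refine ⟨{V | ¬ Good η t0 b V}, hprob b hbb0 L hL1 hL2, ?_⟩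
  intro V hV E0 ψ h1 h2 hψ
  have hgood : Good η t0 b V := by
    by_contra hcon
    exact hV hcon
  obtain ⟨g1, g2, g3, g4⟩ := hgood
  rw [← hGG] at g3 g4
  have hN : 0 < NN d L := NN_pos
  obtain ⟨lam, hlam⟩ : ∃ lam, lam = (b ^ 4)⁻¹ := ⟨_, rfl⟩
  have hl0 : 0 < lam := by rw [hlam]; positivity
  have hb8 : (b ^ 8)⁻¹ = lam ^ 2 := by
    rw [hlam]
    field_simp
  rw [← hlam] at g1 hψ ⊢
  rw [hb8] at g3
  obtain ⟨m, hm⟩ : ∃ m, -E0 = m * lam ^ 2 := ⟨-E0 / lam ^ 2, by field_simp⟩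
  have hl2 : 0 < lam ^ 2 := by positivity
  -- the quadratic forms
  have hΓ : ∀ t : ℝ, |∑ x, V x * gg t V x - NN d L * G| ≤ NN d L * η →
      ∃ Q : ℝ, ∑ x, V x * gg t V x = NN d L * Q ∧ G - η ≤ Q ∧ Q ≤ G + η := by
    intro t ht
    refine ⟨(∑ x, V x * gg t V x) / NN d L, by field_simp, ?_, ?_⟩
    · rw [le_div_iff₀ hN]
      have := (abs_le.1 ht).1
      linarith
    · rw [div_le_iff₀ hN]
      have := (abs_le.1 ht).2
      linarith
  obtain ⟨Q1, hQ1, a1, a2⟩ := hΓ _ g3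
  obtain ⟨Q2, hQ2, a3, a4⟩ := hΓ _ g4
  have hlamb : lam * b ≤ t0 * η := by
    have h3 : lam * b = (b ^ 3)⁻¹ := by
      rw [hlam]
      field_simp
    rw [h3]
    have h4 : (b ^ 3)⁻¹ ≤ b⁻¹ := inv_anti₀ hb0' (le_self_pow₀ hb1 (by norm_num))
    refine h4.trans ?_
    rw [inv_le_iff_one_le_mul₀ hb0']
    linarith
  have hlam2 : lam ^ 2 * (G + 1) ≤ t0 * η := by
    have h3 : lam ^ 2 ≤ b⁻¹ := by
      rw [← hb8]
      exact inv_anti₀ hb0' (le_self_pow₀ hb1 (by norm_num))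
    calc lam ^ 2 * (G + 1) ≤ b⁻¹ * (G + 1) := by gcongr
      _ ≤ t0 * η := by
          rw [inv_mul_le_iff₀ hb0']
          exact hbb2
  have hlow : G - δ ≤ m := by
    have h3 : lam * b / t0 ≤ η := by
      rw [div_le_iff₀ ht0]
      linarith
    have hQ20 : 0 < Q2 := by linarith
    have h3' : 0 ≤ lam * b / t0 := by positivity
    have hl := lower lam t0 E0 V ψ (gg t0 V) hl0 ht0 (fun x => lt_of_lt_of_le one_pos (h1 x)) hψ
      (gg_eq t0 ht0 V) Q2 (η * lam) b hQ2 g1 g2 (by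
        have e1 : lam ^ 2 * Q2 - lam ^ 3 * b * Q2 / t0 - lam * (η * lam) =
            lam ^ 2 * (Q2 * (1 - lam * b / t0) - η) := by ring
        rw [e1]
        apply mul_nonneg hl2.le
        have h4 : (G - η) * (1 - η) ≤ Q2 * (1 - lam * b / t0) := by
          apply mul_le_mul a3 (by linarith) (by linarith) hQ20.le
        have h5 : (G - G / 4) * (1 - 1 / 4) ≤ (G - η) * (1 - η) := by
          apply mul_le_mul <;> linarith only [hη2, hη3, hG]
        linarith only [h4, h5, hη2, hG])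
    have e1 : lam ^ 2 * Q2 - lam ^ 3 * b * Q2 / t0 - lam * (η * lam) =
        lam ^ 2 * (Q2 * (1 - lam * b / t0) - η) := by ring
    rw [e1, hm] at hl
    have e2 : m * lam ^ 2 * (1 + 2 * lam * (η * lam) / t0 + lam ^ 2 * Q2 / t0) =
        lam ^ 2 * (m * (1 + lam ^ 2 * (Q2 + 2 * η) / t0)) := by ring
    rw [e2] at hl
    have hl' := le_of_mul_le_mul_left hl hl2
    have h4 : (G - η) * (1 - η) ≤ Q2 * (1 - lam * b / t0) := by
      apply mul_le_mul a3 (by linarith) (by linarith) hQ20.le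
    have h5 : 0 ≤ lam ^ 2 * (Q2 + 2 * η) / t0 := by positivity
    have h6 : lam ^ 2 * (Q2 + 2 * η) / t0 ≤ η := by
      rw [div_le_iff₀ ht0]
      have h7 : lam ^ 2 * (Q2 + 2 * η) ≤ lam ^ 2 * (G + 1) :=
        mul_le_mul_of_nonneg_left (by linarith only [a4, hη3]) hl2.le
      linarith only [h7, hlam2]
    have h8 : 0 ≤ (G - η) * (1 - η) - η := by
      have h5 : (G - G / 4) * (1 - 1 / 4) ≤ (G - η) * (1 - η) := by
        apply mul_le_mul <;> linarith only [hη2, hη3, hG]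
      linarith only [h5, hη2, hG]
    have hδη : 0 ≤ δ * η := by positivity
    have hGη : 0 ≤ G * η := by positivity
    have hηη : 0 ≤ η * η := by positivity
    have hm0 : 0 ≤ m := by
      by_contra hcon
      push Not at hcon
      have : m * (1 + lam ^ 2 * (Q2 + 2 * η) / t0) < 0 := mul_neg_of_neg_of_pos hcon (by linarith)
      linarith
    have h9 : m * (1 + lam ^ 2 * (Q2 + 2 * η) / t0) ≤ m * (1 + η) := by gcongr
    have h10 : (G - η) * (1 - η) - η ≤ m * (1 + η) := by linarith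
    by_contra hcon
    push Not at hcon
    have h11 : m * (1 + η) ≤ (G - δ) * (1 + η) := by gcongr
    ring_nf at h10 h11 hη1 hδη hGη hηη
    linarith only [h10, h11, hη1, hδη, hGη, hηη, hη0]
  have hupp : m ≤ G + δ := by
    by_contra hcon
    push Not at hcon
    have hm0 : 0 < m := by linarith
    have hE0 : E0 ≤ 0 := by
      have : 0 < m * lam ^ 2 := by positivity
      linarith
    have hQ10 : 0 < Q1 := by linarith
    have hu := upper lam (lam ^ 2) η E0 V ψ (gg (lam ^ 2) V) hl0 hl2 hη0.le h1 h2 hψ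
      (gg_eq _ hl2 V) Q1 (η * lam) hQ1 g1 hE0
    rw [hm] at hu
    have e1 : m * lam ^ 2 / lam = lam * m := by field_simp
    have e2 : (m * lam ^ 2 + lam * (η * lam)) * Q1 = lam ^ 2 * ((m + η) * Q1) := by ring
    rw [e1, e2, Real.sqrt_mul hl2.le, Real.sqrt_mul hl2.le, Real.sqrt_sq hl0.le] at hu
    have h3 : Real.sqrt ((m + η) * Q1) ≤ (m + η + Q1) / 2 := by
      rw [Real.sqrt_le_left (by linarith)]
      nlinarith [sq_nonneg (m + η - Q1)]
    have h4 : Real.sqrt Q1 ≤ Q1 + 1 := by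
      rw [Real.sqrt_le_left (by linarith)]
      nlinarith
    have h5 : lam * m ≤ lam * ((1 + η) * ((m + η + Q1) / 2) + η + η * (Q1 + 1)) := by
      calc lam * m ≤ (1 + η) * (lam * Real.sqrt ((m + η) * Q1)) + η * lam +
            η * (lam * Real.sqrt Q1) := hu
        _ ≤ (1 + η) * (lam * ((m + η + Q1) / 2)) + η * lam + η * (lam * (Q1 + 1)) := by gcongr
        _ = _ := by ring
    have h6 := le_of_mul_le_mul_left h5 hl0
    have hδη : 0 ≤ δ * η := by positivity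
    have hηη : 0 ≤ η * η := by positivity
    have hηη2 : η * η ≤ η * (1 / 4) := mul_le_mul_of_nonneg_left hη3 hη0.le
    have hQη : η * Q1 ≤ η * (G + η) := mul_le_mul_of_nonneg_left a2 hη0.le
    have h8 : (G + δ) * (1 - η) < m * (1 - η) := by
      apply mul_lt_mul_of_pos_right hcon
      linarith only [hη3]
    ring_nf at h6 h8 hη1 hδη hηη hηη2 hQη
    linarith only [h6, h8, hη1, hδη, hηη, hηη2, hQη, hη0, a2]
  rw [hm, ← sub_mul, abs_mul, abs_of_pos hl2]
  apply mul_le_mul_of_nonneg_right _ hl2.le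
  rw [abs_le]
  constructor <;> linarith

end Pool.Agent.Y661.ED
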