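import Pool.Agent.Y661.ED.Pkg
import Pool.Agent.Y661.ED.Ene

/-! The asymptotics of the effective band edge. -/

set_option autoImplicit false
set_option linter.unusedSectionVars false

open scoped BigOperators ENNReal
open MeasureTheory ProbabilityTheory

namespace Pool.Agent.Y661.ED

open Pool.Agent.H4R2
open Pool.Agent.H4R2.AE (T Hop)
open Pool.Agent.H4R2.LO (Zd IsGen L2f)
open Pool.Agent.W788.MFP.Gm (γ Γ)

theorem unique_energy {d L : ℕ} [NeZero L] (lam E1 E2 : ℝ) (V ψ1 ψ2 : T d L → ℝ)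
    (h1 : ∀ x, 0 < ψ1 x) (h2 : ∀ x, 0 < ψ2 x) (g1 : ∀ x, Hop lam V ψ1 x = E1 * ψ1 x)
    (g2 : ∀ x, Hop lam V ψ2 x = E2 * ψ2 x) : E1 = E2 := by
  have key : ∀ (E1 E2 : ℝ) (ψ1 ψ2 : T d L → ℝ), (∀ x, 0 < ψ1 x) → (∀ x, 0 < ψ2 x) →
      (∀ x, Hop lam V ψ1 x = E1 * ψ1 x) → (∀ x, Hop lam V ψ2 x = E2 * ψ2 x) → E1 ≤ E2 := by
    intro E1 E2 ψ1 ψ2 h1 h2 g1 g2
    have h3 := variational lam E1 V ψ1 h1 g1 ψ2
    have h4 : ∑ x, ψ2 x * Hop lam V ψ2 x = E2 * ∑ x, ψ2 x ^ 2 := by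
      rw [Finset.mul_sum]
      refine Finset.sum_congr rfl fun x _ => ?_
      rw [g2 x]
      ring
    rw [h4] at h3
    have h5 : 0 < ∑ x, ψ2 x ^ 2 :=
      Finset.sum_pos (fun x _ => pow_pos (h2 x) 2) ⟨0, Finset.mem_univ _⟩
    exact le_of_mul_le_mul_right h3 h5
  exact le_antisymm (key _ _ _ _ h1 h2 g1 g2) (key _ _ _ _ h2 h1 g2 g1)

theorem exists_good {Ω : Type*} [MeasurableSpace Ω] (P : Measure Ω) [IsProbabilityMeasure P]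
    (G1 G2 Bad : Set Ω) (hG1 : MeasurableSet G1) (hG2 : MeasurableSet G2) (h1 : 3 / 4 ≤ P.real G1)
    (h2 : 3 / 4 ≤ P.real G2) (hB : P.real Bad ≤ 1 / 4) : ∃ ω, ω ∈ G1 ∧ ω ∈ G2 ∧ ω ∉ Bad := by
  by_contra hcon
  push Not at hcon
  have hsub : (Set.univ : Set Ω) ⊆ (G1ᶜ ∪ G2ᶜ) ∪ Bad := by
    intro ω _
    by_cases a : ω ∈ G1
    · by_cases b : ω ∈ G2
      · right
        exact hcon ω a b
      · left; right; exact b
    · left; left; exact a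
  have h3 : P.real (Set.univ : Set Ω) ≤ P.real ((G1ᶜ ∪ G2ᶜ) ∪ Bad) :=
    measureReal_mono hsub (measure_ne_top _ _)
  have h4 := measureReal_union_le (μ := P) (G1ᶜ ∪ G2ᶜ) Bad
  have h5 := measureReal_union_le (μ := P) G1ᶜ G2ᶜ
  have h6 := probReal_add_probReal_compl (μ := P) hG1
  have h7 := probReal_add_probReal_compl (μ := P) hG2
  have h8 : P.real (Set.univ : Set Ω) = 1 := probReal_univ
  linarith

/-- **the effective edge is at `-G_d σ² + o(σ²)`** -/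
theorem es_asymp (d : ℕ) (hd : 3 ≤ d) : ∃ k K : ℝ, 0 < k ∧ 0 < K ∧ ∀ δ : ℝ, 0 < δ → δ ≤ 1 →
    ∃ s0 : ℝ, 0 < s0 ∧ s0 ≤ 1 ∧ ∀ σ : ℝ, 0 < σ → σ ≤ s0 →
      (∃ Es : ℝ, |Es + Gd d * σ ^ 2| ≤ δ * σ ^ 2 ∧ Pkg d 1 k K σ Es) ∧
      ∀ (L : ℕ) [NeZero L], σ ^ (-(3 / 2) : ℝ) ≤ L → (L : ℝ) ≤ σ ^ (-(7 / 4) : ℝ) →
        ∃ G : Set (T d L → ℝ), MeasurableSet G ∧
          1 - Real.exp (-(s0 * σ ^ (-(1 / 4) : ℝ))) ≤
            (Measure.pi fun _ : T d L => gaussianReal 0 1).real G ∧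
          ∀ V ∈ G, ∃ (E0 : ℝ) (ψ : T d L → ℝ), |E0 + Gd d * σ ^ 2| ≤ δ * σ ^ 2 ∧
            (∀ x, 1 ≤ ψ x ∧ ψ x ≤ 1 + δ) ∧ ∀ x, Hop σ V ψ x = E0 * ψ x := by
  obtain ⟨k, K, hk, hK, hp1⟩ := pkg d hd 1 one_pos le_rfl
  refine ⟨k, K, hk, hK, fun δ hδ hδ1 => ?_⟩
  obtain ⟨η1, b0, hη1, hη11, hb0, hen⟩ := energy d hd (δ / 2) (by positivity)
  obtain ⟨η, hη⟩ : ∃ η, η = min η1 δ := ⟨_, rfl⟩
  have hη0 : 0 < η := by rw [hη]; exact lt_min hη1 hδ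
  have hηη1 : η ≤ η1 := by rw [hη]; exact min_le_left _ _
  have hηδ : η ≤ δ := by rw [hη]; exact min_le_right _ _
  obtain ⟨k2, K2, hk2, hK2, hp2⟩ := pkg d hd η hη0 (hηη1.trans hη11)
  obtain ⟨B, hB⟩ : ∃ B : ℝ, B = max (max b0 2) (max (2 / k) (2 / k2)) := ⟨_, rfl⟩
  have hBb : b0 ≤ B := by rw [hB]; exact (le_max_left _ _).trans (le_max_left _ _)
  have hB2 : 2 ≤ B := by rw [hB]; exact (le_max_right _ _).trans (le_max_left _ _)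
  have hBk : 2 / k ≤ B := by rw [hB]; exact (le_max_left _ _).trans (le_max_right _ _)
  have hBk2 : 2 / k2 ≤ B := by rw [hB]; exact (le_max_right _ _).trans (le_max_right _ _)
  have hB0 : 0 < B := by linarith
  obtain ⟨s0, hs0⟩ : ∃ s0 : ℝ, s0 = min (min (min k k2) (min (δ / (4 * K)) (δ / (4 * K2))))
    (min ((B ^ 4)⁻¹) 1) := ⟨_, rfl⟩
  have hs00 : 0 < s0 := by rw [hs0]; positivity
  have hs0k : s0 ≤ k := by
    rw [hs0]
    exact (min_le_left _ _).trans ((min_le_left _ _).trans (min_le_left _ _))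
  have hs0k2 : s0 ≤ k2 := by
    rw [hs0]
    exact (min_le_left _ _).trans ((min_le_left _ _).trans (min_le_right _ _))
  have hs0K : s0 ≤ δ / (4 * K) := by
    rw [hs0]
    exact (min_le_left _ _).trans ((min_le_right _ _).trans (min_le_left _ _))
  have hs0K2 : s0 ≤ δ / (4 * K2) := by
    rw [hs0]
    exact (min_le_left _ _).trans ((min_le_right _ _).trans (min_le_right _ _))
  have hs0B : s0 ≤ (B ^ 4)⁻¹ := by
    rw [hs0]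
    exact (min_le_right _ _).trans (min_le_left _ _)
  have hs01 : s0 ≤ 1 := by
    rw [hs0]
    exact (min_le_right _ _).trans (min_le_right _ _)
  refine ⟨s0, hs00, hs01, fun σ hσ hσ0 => ?_⟩
  obtain ⟨Es1, q1, q1'⟩ := hp1 σ hσ (hσ0.trans hs0k)
  obtain ⟨Es2, q2, -⟩ := hp2 σ hσ (hσ0.trans hs0k2)
  -- the scale
  obtain ⟨b, hb⟩ : ∃ b : ℝ, b = σ ^ (-(1 / 4) : ℝ) := ⟨_, rfl⟩
  have hbpos : 0 < b := by rw [hb]; exact Real.rpow_pos_of_pos hσ _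
  have hbn : ∀ n : ℕ, b ^ n = σ ^ (-(1 / 4) * (n : ℝ)) := by
    intro n
    rw [hb, ← Real.rpow_natCast, ← Real.rpow_mul hσ.le]
  have hb4 : b ^ 4 = σ⁻¹ := by
    rw [hbn 4, ← Real.rpow_neg_one]
    norm_num
  have hσb : (b ^ 4)⁻¹ = σ := by rw [hb4, inv_inv]
  have hb6 : σ ^ (-(3 / 2) : ℝ) = b ^ 6 := by
    rw [hbn 6]
    norm_num
  have hb7 : σ ^ (-(7 / 4) : ℝ) = b ^ 7 := by
    rw [hbn 7]
    norm_num
  have hBb' : B ≤ b := by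
    have h1 : B ^ 4 ≤ b ^ 4 := by
      rw [hb4, le_inv_comm₀ (by positivity) hσ]
      exact hσ0.trans hs0B
    exact le_of_pow_le_pow_left₀ (by norm_num) hbpos.le h1
  have hb2 : 2 ≤ b := hB2.trans hBb'
  have hb1 : 1 ≤ b := by linarith
  have hσ3 : ∀ (L : ℕ) (C : ℝ), 0 < C → b ^ 6 ≤ L → s0 ≤ δ / (4 * C) →
      C / (L : ℝ) ^ 2 ≤ δ / 4 * σ ^ 2 := by
    intro L C hC hL hC2
    rw [le_div_iff₀ (by positivity)] at hC2
    have hL0 : (0 : ℝ) < L := lt_of_lt_of_le (by positivity) hL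
    calc C / (L : ℝ) ^ 2 ≤ C / (b ^ 6) ^ 2 := by gcongr
      _ = C * σ * σ ^ 2 := by
          rw [← hσb]
          field_simp
      _ ≤ δ / 4 * σ ^ 2 := by
          have h1 : C * σ ≤ C * s0 := by gcongr
          have h2 : C * σ ≤ δ / 4 := by linarith
          gcongr
  -- the torus
  obtain ⟨L0, hL0⟩ : ∃ L0 : ℕ, L0 = ⌈b ^ 6⌉₊ := ⟨_, rfl⟩
  have hL0a : b ^ 6 ≤ L0 := by rw [hL0]; exact Nat.le_ceil _
  have hb6one : 1 ≤ b ^ 6 := one_le_pow₀ hb1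
  have hL0b : (L0 : ℝ) ≤ 2 * b ^ 6 := by
    have := Nat.ceil_lt_add_one (show 0 ≤ b ^ 6 by positivity)
    rw [← hL0] at this
    linarith
  have hL0c : (L0 : ℝ) ≤ b ^ 7 := by
    refine hL0b.trans ?_
    calc 2 * b ^ 6 ≤ b * b ^ 6 := by gcongr
      _ = b ^ 7 := by ring
  have hL0n : L0 ≠ 0 := by
    intro h
    rw [h] at hL0a
    norm_num at hL0a
    linarith
  haveI : NeZero L0 := ⟨hL0n⟩
  obtain ⟨G1, hG1, hP1, hF1⟩ := q1 L0 (by rw [hb7]; exact hL0c)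
  obtain ⟨G2, hG2, hP2, hF2⟩ := q2 L0 (by rw [hb7]; exact hL0c)
  obtain ⟨Bad, hBad, hF3⟩ := hen b (hBb.trans hBb') L0 hL0a hL0b
  have hpr : ∀ κ : ℝ, 0 < κ → 2 / κ ≤ B → Real.exp (-(κ * σ ^ (-(1 / 4) : ℝ))) ≤ 1 / 4 := by
    intro κ hκ hκB
    rw [← hb]
    have h1 : 2 ≤ κ * b := by
      have := hκB.trans hBb'
      rw [div_le_iff₀ hκ] at this
      linarith
    rw [Real.exp_neg, inv_le_comm₀ (Real.exp_pos _) (by norm_num)]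
    have h2 := Real.quadratic_le_exp_of_nonneg (x := κ * b) (by linarith)
    norm_num
    nlinarith
  have hp1' := hpr k hk hBk
  have hp2' := hpr k2 hk2 hBk2
  obtain ⟨V, v1, v2, v3⟩ := exists_good (Measure.pi fun _ : T d L0 => gaussianReal 0 1) G1 G2 Bad
    hG1 hG2 (by linarith) (by linarith) hBad
  obtain ⟨E1, ψ1, a1, a2, a3⟩ := hF1 V v1
  obtain ⟨E2, ψ2, c1, c2, c3⟩ := hF2 V v2
  have hE12 : E1 = E2 := unique_energy σ E1 E2 V ψ1 ψ2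
    (fun x => lt_of_lt_of_le one_pos (a2 x).1) (fun x => lt_of_lt_of_le one_pos (c2 x).1) a3 c3
  have hE := hF3 V v3 E2 ψ2 (fun x => (c2 x).1) (fun x => by linarith [(c2 x).2]) (by
    rw [hσb]
    exact c3)
  rw [hσb] at hE
  rw [hE12] at a1
  have t1 := hσ3 L0 K hK hL0a hs0K
  have t2 := hσ3 L0 K2 hK2 hL0a hs0K2
  have hσ2 : 0 < σ ^ 2 := by positivity
  have hδσ : 0 < δ * σ ^ 2 := by positivity
  rw [abs_le] at hE a1 c1
  have hEs1 : |Es1 + Gd d * σ ^ 2| ≤ δ * σ ^ 2 := by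
    rw [abs_le]
    constructor <;> linarith
  refine ⟨⟨Es1, hEs1, q1, q1'⟩, ?_⟩
  intro L _ hLa hLb
  rw [hb6] at hLa
  obtain ⟨G, hG, hP, hF⟩ := q2 L hLb
  refine ⟨G, hG, ?_, ?_⟩
  · refine le_trans ?_ hP
    have h1 : Real.exp (-(k2 * σ ^ (-(1 / 4) : ℝ))) ≤ Real.exp (-(s0 * σ ^ (-(1 / 4) : ℝ))) := by
      apply Real.exp_le_exp.2
      rw [← hb]
      have : s0 * b ≤ k2 * b := by gcongr
      linarith
    linarith
  · intro W hW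
    obtain ⟨E0, ψ, e1, e2, e3⟩ := hF W hW
    refine ⟨E0, ψ, ?_, fun x => ⟨(e2 x).1, by linarith [(e2 x).2]⟩, e3⟩
    have t3 := hσ3 L K2 hK2 hLa hs0K2
    rw [abs_le] at e1 ⊢
    constructor <;> linarith

end Pool.Agent.Y661.ED
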