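import Pool.Agent.Y661.ED.Heat

/-! The lattice Green function at the origin as a limit of sums over tori. -/

set_option autoImplicit false
set_option linter.unusedSectionVars false

open scoped BigOperators Topology ENNReal
open MeasureTheory Set Filter

namespace Pool.Agent.Y661.ED

/-- the lattice Green function at the origin -/
noncomputable def Gd (d : ℕ) : ℝ :=
  ∫ x in Set.pi Set.univ (fun _ : Fin d => Set.Icc (0 : ℝ) 1), (∑ i, om (x i))⁻¹

theorem inv_eq_integral (a : ℝ) (ha : 0 < a) : a⁻¹ = ∫ s in Ioi (0 : ℝ), Real.exp (-a * s) := by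
  rw [integral_exp_mul_Ioi (by linarith)]
  simp

theorem om_pos (x : ℝ) (h0 : x ≠ 0) (h1 : x ≠ 1) (h : x ∈ Icc (0 : ℝ) 1) : 0 < om x := by
  have h2 : 0 < x := lt_of_le_of_ne h.1 (Ne.symm h0)
  have h3 : x < 1 := lt_of_le_of_ne h.2 h1
  rw [om_eq]
  have h4 : 0 < Real.sin (Real.pi * x) := by
    apply Real.sin_pos_of_pos_of_lt_pi
    · have := Real.pi_pos
      positivity
    · have := Real.pi_pos
      nlinarith
  positivity

theorem Gd_eq (d : ℕ) (hd : 1 ≤ d) : Gd d = ∫ s in Ioi (0 : ℝ), P1 s ^ d := by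
  obtain ⟨μ, hμ⟩ : ∃ μ : Measure (Fin d → ℝ), μ = Measure.pi fun _ : Fin d =>
    (volume.restrict (Icc (0 : ℝ) 1)) := ⟨_, rfl⟩
  have hμ2 : (volume : Measure (Fin d → ℝ)).restrict
      (Set.pi Set.univ (fun _ : Fin d => Set.Icc (0 : ℝ) 1)) = μ := by
    rw [hμ, volume_pi, Measure.restrict_pi_pi]
  have hfin : IsFiniteMeasure μ := by
    rw [hμ]
    infer_instance
  unfold Gd
  rw [hμ2]
  have hmeas : Measurable fun x : Fin d → ℝ => (∑ i, om (x i))⁻¹ := by
    have := om_cont.measurable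
    fun_prop
  have hS0 : ∀ x : Fin d → ℝ, 0 ≤ ∑ i, om (x i) := fun x =>
    Finset.sum_nonneg fun i _ => om_nonneg _
  rw [integral_eq_lintegral_of_nonneg_ae (Eventually.of_forall fun x => inv_nonneg.2 (hS0 x))
    hmeas.aestronglyMeasurable]
  rw [integral_eq_lintegral_of_nonneg_ae (Eventually.of_forall fun s => pow_nonneg (P1_nonneg s) d)
    (P1_cont.pow d).aestronglyMeasurable]
  congr 1
  -- almost everywhere positive
  have hae : ∀ᵐ x ∂μ, 0 < ∑ i, om (x i) := by
    have h1 : ∀ᵐ x ∂μ, x ⟨0, by omega⟩ ≠ 0 := by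
      rw [hμ]
      exact Measure.ae_eval_ne (fun _ : Fin d => volume.restrict (Icc (0 : ℝ) 1)) ⟨0, by omega⟩ 0
    have h2 : ∀ᵐ x ∂μ, x ⟨0, by omega⟩ ≠ 1 := by
      rw [hμ]
      exact Measure.ae_eval_ne (fun _ : Fin d => volume.restrict (Icc (0 : ℝ) 1)) ⟨0, by omega⟩ 1
    have h3 : ∀ᵐ x ∂μ, x ∈ Set.pi Set.univ (fun _ : Fin d => Set.Icc (0 : ℝ) 1) := by
      rw [← hμ2]
      exact ae_restrict_mem (MeasurableSet.univ_pi fun _ => measurableSet_Icc)
    filter_upwards [h1, h2, h3] with x h1 h2 h3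
    have h4 := om_pos _ h1 h2 (h3 ⟨0, by omega⟩ (mem_univ _))
    exact lt_of_lt_of_le h4 (Finset.single_le_sum (f := fun i => om (x i))
      (fun i _ => om_nonneg _) (Finset.mem_univ _))
  have h1 : ∫⁻ x, ENNReal.ofReal ((∑ i, om (x i))⁻¹) ∂μ =
      ∫⁻ x, (∫⁻ s in Ioi (0 : ℝ), ENNReal.ofReal (Real.exp (-(∑ i, om (x i)) * s))) ∂μ := by
    apply lintegral_congr_ae
    filter_upwards [hae] with x hx
    rw [inv_eq_integral _ hx, ofReal_integral_eq_lintegral_ofReal]
    · exact integrableOn_exp_mul_Ioi (by linarith) 0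
    · exact Eventually.of_forall fun s => (Real.exp_pos _).le
  rw [h1, lintegral_lintegral_swap]
  · apply lintegral_congr_ae
    filter_upwards [ae_restrict_mem measurableSet_Ioi] with s hs
    have hs0 : (0 : ℝ) < s := hs
    have hcont : Continuous fun x : Fin d → ℝ => Real.exp (-(∑ i, om (x i)) * s) := by
      have := om_cont
      fun_prop
    rw [← ofReal_integral_eq_lintegral_ofReal]
    · congr 1
      have h2 : ∀ x : Fin d → ℝ, Real.exp (-(∑ i, om (x i)) * s) =
          ∏ i, Real.exp (-(s * om (x i))) := by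
        intro x
        rw [← Real.exp_sum]
        congr 1
        rw [Finset.sum_neg_distrib, ← Finset.mul_sum]
        ring
      simp only [h2]
      rw [hμ]
      rw [integral_fintype_prod_eq_pow (ι := Fin d) (fun x : ℝ => Real.exp (-(s * om x)))]
      rw [Fintype.card_fin]
      congr 1
      unfold P1
      rw [intervalIntegral.integral_of_le zero_le_one, integral_Icc_eq_integral_Ioc]
    · apply Integrable.of_bound hcont.aestronglyMeasurable 1
      refine Eventually.of_forall fun x => ?_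
      rw [Real.norm_eq_abs, abs_of_pos (Real.exp_pos _)]
      apply Real.exp_le_one_iff.2
      have := mul_nonneg (hS0 x) hs0.le
      linarith
    · exact Eventually.of_forall fun x => (Real.exp_pos _).le
  · apply Measurable.aemeasurable
    have := om_cont.measurable
    unfold Function.uncurry
    fun_prop

/-- the normalized trace of the resolvent on the torus -/
noncomputable def FL (d L : ℕ) [NeZero L] (t : ℝ) : ℝ :=
  ((L : ℝ) ^ d)⁻¹ * ∑ k : Fin d → ZMod L, (∑ i, om (((k i).val : ℝ) / L) + t)⁻¹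

variable (d L : ℕ) [NeZero L]

theorem FL_eq (t : ℝ) (ht : 0 < t) :
    FL d L t = ∫ s in Ioi (0 : ℝ), Real.exp (-t * s) * PL L s ^ d := by
  have hL := L_pos L
  unfold FL
  have h0 : ∀ k : Fin d → ZMod L, 0 < ∑ i, om (((k i).val : ℝ) / L) + t := fun k => by
    have := Finset.sum_nonneg fun i (_ : i ∈ Finset.univ) => om_nonneg (((k i).val : ℝ) / L)
    linarith
  rw [Finset.sum_congr rfl fun k _ => inv_eq_integral _ (h0 k), ← integral_finset_sum,
    ← integral_const_mul]
  · refine integral_congr_ae (Eventually.of_forall fun s => ?_)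
    beta_reduce
    have h1 : ∀ k : Fin d → ZMod L, Real.exp (-(∑ i, om (((k i).val : ℝ) / L) + t) * s) =
        Real.exp (-t * s) * ∏ i, Real.exp (-(s * om (((k i).val : ℝ) / L))) := by
      intro k
      rw [← Real.exp_sum, ← Real.exp_add]
      congr 1
      rw [Finset.sum_neg_distrib, ← Finset.mul_sum]
      ring
    rw [Finset.sum_congr rfl fun k _ => h1 k, ← Finset.mul_sum]
    unfold PL
    rw [mul_pow, Fintype.sum_pow, inv_pow]
    ring
  · intro k _
    exact integrableOn_exp_mul_Ioi (by linarith [h0 k]) 0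

theorem pow_sub_le {a b : ℝ} (ha : 0 ≤ a) (ha1 : a ≤ 1) (hb : 0 ≤ b) (hb1 : b ≤ 1) (d : ℕ) :
    |a ^ d - b ^ d| ≤ d * |a - b| := by
  induction d with
  | zero => simp
  | succ n ih =>
    have h1 : a ^ (n + 1) - b ^ (n + 1) = (a ^ n - b ^ n) * a + b ^ n * (a - b) := by ring
    rw [h1]
    have h2 : b ^ n ≤ 1 := pow_le_one₀ hb hb1
    have h3 : 0 ≤ b ^ n := pow_nonneg hb n
    calc |(a ^ n - b ^ n) * a + b ^ n * (a - b)| ≤ |(a ^ n - b ^ n) * a| + |b ^ n * (a - b)| :=
          abs_add_le _ _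
      _ = |a ^ n - b ^ n| * a + b ^ n * |a - b| := by
          rw [abs_mul, abs_mul, abs_of_nonneg ha, abs_of_nonneg h3]
      _ ≤ (n * |a - b|) * 1 + 1 * |a - b| := by
          gcongr
      _ = ((n + 1 : ℕ) : ℝ) * |a - b| := by push_cast; ring

theorem tail_int (S : ℝ) (hS : 0 < S) :
    IntegrableOn (fun s : ℝ => s ^ (-(3 / 2) : ℝ)) (Ioi S) ∧
      ∫ s in Ioi S, s ^ (-(3 / 2) : ℝ) = 2 / Real.sqrt S := by
  refine ⟨integrableOn_Ioi_rpow_of_lt (by norm_num) hS, ?_⟩
  rw [integral_Ioi_rpow_of_lt (by norm_num) hS]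
  have h1 : (-(3 / 2) : ℝ) + 1 = -(1 / 2) := by norm_num
  rw [h1, Real.rpow_neg hS.le, ← Real.sqrt_eq_rpow]
  field_simp

theorem sqrt_pow_le (d : ℕ) (hd : 3 ≤ d) (s : ℝ) (hs : 1 ≤ s) :
    (1 / Real.sqrt s) ^ d ≤ s ^ (-(3 / 2) : ℝ) := by
  have hs0 : 0 < s := by linarith
  have h1 : 1 ≤ Real.sqrt s := Real.one_le_sqrt.2 hs
  have h2 : (1 / Real.sqrt s) ^ d ≤ (1 / Real.sqrt s) ^ 3 := by
    apply pow_le_pow_of_le_one (by positivity) _ hd
    rw [div_le_one (by linarith)]
    exact h1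
  refine h2.trans (le_of_eq ?_)
  rw [Real.sqrt_eq_rpow, one_div, ← Real.rpow_neg hs0.le, ← Real.rpow_natCast,
    ← Real.rpow_mul hs0.le]
  norm_num

/-- the comparison -/
theorem FL_sub (hd : 3 ≤ d) (t S : ℝ) (ht : 0 < t) (hS : 1 ≤ S) :
    |FL d L t - Gd d| ≤ S * (t * S + 13 * d * S / L) + 4 ^ d / ((L : ℝ) ^ d * t) +
      (2 ^ d + 1) * (2 / Real.sqrt S) := by
  have hL := L_pos L
  have hS0 : 0 < S := by linarith
  obtain ⟨hT1, hT2⟩ := tail_int S hS0
  rw [FL_eq d L t ht, Gd_eq d (by omega)]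
  have hPL0 := PL_nonneg L
  have hPLc := PL_cont L
  have hP0 := P1_nonneg
  have hPc := P1_cont
  -- pointwise tail bounds
  have hb1 : ∀ s ∈ Ioi S, Real.exp (-t * s) * PL L s ^ d ≤
      (4 / (L : ℝ)) ^ d * Real.exp (-t * s) + 2 ^ d * s ^ (-(3 / 2) : ℝ) := by
    intro s hs
    have hs1 : S < s := hs
    have hs0 : 0 < s := by linarith
    have h1 := PL_le L s hs0
    have h2 : PL L s ^ d ≤ (4 / (L : ℝ)) ^ d + 2 ^ d * (1 / Real.sqrt s) ^ d := by
      rcases le_total (2 / (L : ℝ)) (1 / Real.sqrt s) with h | h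
      · have h3 : PL L s ≤ 2 * (1 / Real.sqrt s) := by linarith
        calc PL L s ^ d ≤ (2 * (1 / Real.sqrt s)) ^ d := pow_le_pow_left₀ (hPL0 s) h3 d
          _ = 2 ^ d * (1 / Real.sqrt s) ^ d := mul_pow _ _ _
          _ ≤ _ := by
              have : 0 ≤ (4 / (L : ℝ)) ^ d := by positivity
              linarith
      · have h3 : PL L s ≤ 4 / (L : ℝ) := by
          have : (4 : ℝ) / L = 2 / L + 2 / L := by ring
          linarith
        calc PL L s ^ d ≤ (4 / (L : ℝ)) ^ d := pow_le_pow_left₀ (hPL0 s) h3 d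
          _ ≤ _ := by
              have : 0 ≤ 2 ^ d * (1 / Real.sqrt s) ^ d := by positivity
              linarith
    have h3 := sqrt_pow_le d hd s (by linarith)
    have h4 : Real.exp (-t * s) ≤ 1 := Real.exp_le_one_iff.2 (by nlinarith)
    have h5 := Real.exp_pos (-t * s)
    calc Real.exp (-t * s) * PL L s ^ d ≤
          Real.exp (-t * s) * ((4 / (L : ℝ)) ^ d + 2 ^ d * (1 / Real.sqrt s) ^ d) := by gcongr
      _ = (4 / (L : ℝ)) ^ d * Real.exp (-t * s) +
          Real.exp (-t * s) * (2 ^ d * (1 / Real.sqrt s) ^ d) := by ring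
      _ ≤ (4 / (L : ℝ)) ^ d * Real.exp (-t * s) + 1 * (2 ^ d * s ^ (-(3 / 2) : ℝ)) := by
          gcongr
      _ = _ := by ring
  have hb2 : ∀ s ∈ Ioi S, P1 s ^ d ≤ s ^ (-(3 / 2) : ℝ) := by
    intro s hs
    have hs1 : S < s := hs
    have hs0 : 0 < s := by linarith
    exact (pow_le_pow_left₀ (hP0 s) (P1_le s hs0) d).trans (sqrt_pow_le d hd s (by linarith))
  have hexp : IntegrableOn (fun s : ℝ => Real.exp (-t * s)) (Ioi S) :=
    integrableOn_exp_mul_Ioi (by linarith) S
  have hI1 : IntegrableOn (fun s : ℝ => (4 / (L : ℝ)) ^ d * Real.exp (-t * s) +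
      2 ^ d * s ^ (-(3 / 2) : ℝ)) (Ioi S) := (hexp.const_mul _).add (hT1.const_mul _)
  have hc1 : Continuous fun s : ℝ => Real.exp (-t * s) * PL L s ^ d := by fun_prop
  have hc2 : Continuous fun s : ℝ => P1 s ^ d := by fun_prop
  have hi1 : IntegrableOn (fun s : ℝ => Real.exp (-t * s) * PL L s ^ d) (Ioi S) := by
    refine Integrable.mono' hI1 hc1.aestronglyMeasurable ?_
    filter_upwards [ae_restrict_mem measurableSet_Ioi] with s hs
    rw [Real.norm_eq_abs, abs_of_nonneg (mul_nonneg (Real.exp_pos _).le (pow_nonneg (hPL0 s) d))]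
    exact hb1 s hs
  have hi2 : IntegrableOn (fun s : ℝ => P1 s ^ d) (Ioi S) := by
    refine Integrable.mono' hT1 hc2.aestronglyMeasurable ?_
    filter_upwards [ae_restrict_mem measurableSet_Ioi] with s hs
    rw [Real.norm_eq_abs, abs_of_nonneg (pow_nonneg (hP0 s) d)]
    exact hb2 s hs
  have hj1 : IntegrableOn (fun s : ℝ => Real.exp (-t * s) * PL L s ^ d) (Ioc 0 S) :=
    (hc1.integrableOn_Icc).mono_set Ioc_subset_Icc_self
  have hj2 : IntegrableOn (fun s : ℝ => P1 s ^ d) (Ioc 0 S) :=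
    (hc2.integrableOn_Icc).mono_set Ioc_subset_Icc_self
  have hsp : Ioi (0 : ℝ) = Ioc 0 S ∪ Ioi S := (Ioc_union_Ioi_eq_Ioi hS0.le).symm
  have hdis : Disjoint (Ioc (0 : ℝ) S) (Ioi S) := by
    rw [Set.disjoint_left]
    intro x hx hx2
    exact absurd hx.2 (not_le.2 hx2)
  rw [hsp, setIntegral_union hdis measurableSet_Ioi hj1 hi1,
    setIntegral_union hdis measurableSet_Ioi hj2 hi2]
  -- the main part
  have hm : |(∫ s in Ioc 0 S, Real.exp (-t * s) * PL L s ^ d) - ∫ s in Ioc 0 S, P1 s ^ d| ≤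
      S * (t * S + 13 * d * S / L) := by
    rw [← integral_sub hj1 hj2]
    have h1 := norm_setIntegral_le_of_norm_le_const (μ := volume) (s := Ioc (0 : ℝ) S)
      (f := fun s => Real.exp (-t * s) * PL L s ^ d - P1 s ^ d) (C := t * S + 13 * d * S / L)
      (by rw [Real.volume_Ioc]; exact ENNReal.ofReal_lt_top) (by
        intro s hs
        have hs0 : 0 < s := hs.1
        have hsS : s ≤ S := hs.2
        rw [Real.norm_eq_abs]
        have h2 : Real.exp (-t * s) * PL L s ^ d - P1 s ^ d =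
            (Real.exp (-t * s) - 1) * PL L s ^ d + (PL L s ^ d - P1 s ^ d) := by ring
        rw [h2]
        refine (abs_add_le _ _).trans ?_
        have h3 : |PL L s ^ d - P1 s ^ d| ≤ d * (13 * s / L) :=
          (pow_sub_le (hPL0 s) (PL_le_one L s hs0.le) (hP0 s) (P1_le_one s hs0.le) d).trans
            (mul_le_mul_of_nonneg_left (PL_sub L s hs0.le) (Nat.cast_nonneg d))
        have h4 : |Real.exp (-t * s) - 1| ≤ t * s := by
          have h5 : Real.exp (-t * s) ≤ 1 := Real.exp_le_one_iff.2 (by nlinarith)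
          have h6 := Real.add_one_le_exp (-t * s)
          rw [abs_of_nonpos (by linarith)]
          linarith
        have h5 : PL L s ^ d ≤ 1 := pow_le_one₀ (hPL0 s) (PL_le_one L s hs0.le)
        have h6 : 0 ≤ PL L s ^ d := pow_nonneg (hPL0 s) d
        rw [abs_mul, abs_of_nonneg h6]
        have h7 : |Real.exp (-t * s) - 1| * PL L s ^ d ≤ t * S := by
          calc |Real.exp (-t * s) - 1| * PL L s ^ d ≤ (t * s) * 1 := by gcongr
            _ ≤ t * S := by rw [mul_one]; gcongr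
        have h8 : (d : ℝ) * (13 * s / L) ≤ 13 * d * S / L := by
          calc (d : ℝ) * (13 * s / L) ≤ d * (13 * S / L) := by gcongr
            _ = _ := by ring
        linarith)
    rw [Real.norm_eq_abs, Measure.real, Real.volume_Ioc, sub_zero,
      ENNReal.toReal_ofReal hS0.le] at h1
    linarith
  have ht1 : 0 ≤ ∫ s in Ioi S, Real.exp (-t * s) * PL L s ^ d :=
    setIntegral_nonneg measurableSet_Ioi fun s _ =>
      mul_nonneg (Real.exp_pos _).le (pow_nonneg (hPL0 s) d)
  have ht2 : 0 ≤ ∫ s in Ioi S, P1 s ^ d :=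
    setIntegral_nonneg measurableSet_Ioi fun s _ => pow_nonneg (hP0 s) d
  have ht3 : ∫ s in Ioi S, Real.exp (-t * s) * PL L s ^ d ≤
      4 ^ d / ((L : ℝ) ^ d * t) + 2 ^ d * (2 / Real.sqrt S) := by
    refine (setIntegral_mono_on hi1 hI1 measurableSet_Ioi hb1).trans ?_
    rw [integral_add (hexp.const_mul _) (hT1.const_mul _), integral_const_mul,
      integral_const_mul, hT2, integral_exp_mul_Ioi (by linarith)]
    have h1 : (4 / (L : ℝ)) ^ d * (-Real.exp (-t * S) / -t) ≤ 4 ^ d / ((L : ℝ) ^ d * t) := by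
      have h2 : Real.exp (-t * S) ≤ 1 := Real.exp_le_one_iff.2 (by nlinarith)
      rw [neg_div_neg_eq, div_pow, div_mul_div_comm]
      apply div_le_div_of_nonneg_right _ (by positivity)
      have h3 : (0 : ℝ) < 4 ^ d := by positivity
      nlinarith
    linarith
  have ht4 : ∫ s in Ioi S, P1 s ^ d ≤ 2 / Real.sqrt S := by
    refine (setIntegral_mono_on hi2 hT1 measurableSet_Ioi hb2).trans ?_
    rw [hT2]
  have hlast : 0 ≤ 4 ^ d / ((L : ℝ) ^ d * t) := by positivity
  have hlast2 : 0 ≤ 2 ^ d * (2 / Real.sqrt S) := by positivity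
  have hlast3 : 0 ≤ 2 / Real.sqrt S := by positivity
  have he : (2 ^ d + 1) * (2 / Real.sqrt S) = 2 ^ d * (2 / Real.sqrt S) + 2 / Real.sqrt S := by
    ring
  rw [he]
  rw [abs_le] at hm ⊢
  constructor
  · linarith [hm.1]
  · linarith [hm.2]

end Pool.Agent.Y661.ED
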