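import Pool.Agent.TH722.K6.Quad
import Pool.Agent.W788.MFP.Gm
import Pool.Agent.W788.MFP.Four
import Pool.Agent.Y661.ED.Grn
import Pool.Agent.Y661.ED.Det
import Pool.Agent.Y661.BG.Dom

/-! The Gaussian quadratic form on a torus. -/

set_option autoImplicit false
set_option linter.unusedSectionVars false

open scoped BigOperators
open MeasureTheory ProbabilityTheory Set Filter

namespace Pool.Agent.Y661.ED

open Pool.Agent.W788.MFP.Gm (γ Γ int_poly ibp)
open MvPolynomial (X C eval pderiv)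

section poly

variable {κ : Type} [Fintype κ] [DecidableEq κ]

/-- the expectation as a linear map -/
noncomputable def Ex : MvPolynomial κ ℝ →ₗ[ℝ] ℝ where
  toFun p := ∫ ξ, eval ξ p ∂(Γ κ)
  map_add' p q := by
    simp only [map_add]
    exact integral_add (int_poly p) (int_poly q)
  map_smul' c p := by
    simp only [MvPolynomial.smul_eval, RingHom.id_apply, smul_eq_mul]
    exact integral_const_mul _ _

theorem Ex_apply (p : MvPolynomial κ ℝ) : Ex p = ∫ ξ, eval ξ p ∂(Γ κ) := rfl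

theorem Ex_C (c : ℝ) : Ex (C c : MvPolynomial κ ℝ) = c := by
  rw [Ex_apply]
  simp

theorem Ex_ibp (i : κ) (P : MvPolynomial κ ℝ) : Ex (X i * P) = Ex (pderiv i P) := by
  rw [Ex_apply, Ex_apply, ← ibp P i]
  simp

theorem D_X (i j : κ) : pderiv i (X j : MvPolynomial κ ℝ) = if i = j then 1 else 0 := by
  split_ifs with h
  · rw [h, MvPolynomial.pderiv_X_self]
  · exact MvPolynomial.pderiv_X_of_ne (Ne.symm h)

/-- the variance of a quadratic form -/
theorem quad_var (A : Matrix κ κ ℝ) (hA : A.IsSymm) :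
    Integrable (fun ξ : κ → ℝ => (∑ i, ∑ j, A i j * ξ i * ξ j - ∑ i, A i i) ^ 2) (Γ κ) ∧
    ∫ ξ, (∑ i, ∑ j, A i j * ξ i * ξ j - ∑ i, A i i) ^ 2 ∂(Γ κ) = 2 * ∑ i, ∑ j, A i j ^ 2 := by
  obtain ⟨B, hB⟩ : ∃ B : Matrix κ κ (MvPolynomial κ ℝ), B = A.map C := ⟨_, rfl⟩
  have hev : ∀ ξ : κ → ℝ, eval ξ (Pool.Agent.TH722.K6.qf (fun i => (X i : MvPolynomial κ ℝ)) B ^ 2) =
      (∑ i, ∑ j, A i j * ξ i * ξ j - ∑ i, A i i) ^ 2 := by
    intro ξ
    unfold Pool.Agent.TH722.K6.qf
    rw [hB]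
    simp [Matrix.map_apply]
  have h := (Pool.Agent.TH722.K6.quad_moments (R := MvPolynomial κ ℝ) Ex (fun i => X i)
    (fun i => pderiv i) Ex_ibp D_X B (by
      intro k i j
      rw [hB]
      simp [Matrix.map_apply]) (by
      rw [hB]
      exact hA.map C)).1
  constructor
  · have h2 := int_poly (Pool.Agent.TH722.K6.qf (fun i => (X i : MvPolynomial κ ℝ)) B ^ 2)
    simp only [hev] at h2
    exact h2
  · rw [Ex_apply] at h
    simp only [hev] at h
    rw [h]
    congr 1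
    have h3 : (B ^ 2).trace = C (∑ i, ∑ j, A i j ^ 2) := by
      rw [hB, sq]
      unfold Matrix.trace
      simp only [Matrix.diag_apply, Matrix.mul_apply, Matrix.map_apply, ← map_mul, ← map_sum]
      congr 1
      refine Finset.sum_congr rfl fun i _ => Finset.sum_congr rfl fun j _ => ?_
      rw [hA.apply i j]
      ring
    rw [h3, Ex_C]

/-- the variance of the sum -/
theorem sum_var : Integrable (fun ξ : κ → ℝ => (∑ i, ξ i) ^ 2) (Γ κ) ∧
    ∫ ξ, (∑ i, ξ i) ^ 2 ∂(Γ κ) = Fintype.card κ := by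
  obtain ⟨p, hp⟩ : ∃ p : MvPolynomial κ ℝ, p = ∑ i, X i := ⟨_, rfl⟩
  have hev : ∀ ξ : κ → ℝ, eval ξ p = ∑ i, ξ i := by
    intro ξ
    rw [hp]
    simp
  have hev2 : ∀ ξ : κ → ℝ, eval ξ (p ^ 2) = (∑ i, ξ i) ^ 2 := by
    intro ξ
    rw [map_pow, hev]
  have hD : ∀ i : κ, pderiv i p = 1 := by
    intro i
    rw [hp, map_sum]
    simp only [D_X]
    simp
  constructor
  · have h := int_poly (p ^ 2)
    simp only [hev2] at h
    exact h
  · have h1 : Ex (p ^ 2) = Fintype.card κ := by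
      have e1 : p ^ 2 = ∑ i, X i * p := by
        rw [← Finset.sum_mul, ← hp, sq]
      rw [e1, map_sum]
      have e2 : ∀ i : κ, Ex (X i * p) = 1 := by
        intro i
        rw [Ex_ibp, hD]
        have := Ex_C (κ := κ) 1
        rwa [MvPolynomial.C_1] at this
      simp only [e2]
      simp
    rw [Ex_apply] at h1
    simp only [hev2] at h1
    exact h1

theorem cheb (f : (κ → ℝ) → ℝ) (hi : Integrable (fun ξ => f ξ ^ 2) (Γ κ)) (V a : ℝ) (ha : 0 < a)
    (hV : ∫ ξ, f ξ ^ 2 ∂(Γ κ) ≤ V) : (Γ κ).real {ξ | a < |f ξ|} ≤ V / a ^ 2 := by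
  have h1 := mul_meas_ge_le_integral_of_nonneg (μ := Γ κ) (f := fun ξ => f ξ ^ 2)
    (Eventually.of_forall fun ξ => sq_nonneg _) hi (a ^ 2)
  have h2 : (Γ κ).real {ξ | a < |f ξ|} ≤ (Γ κ).real {ξ | a ^ 2 ≤ f ξ ^ 2} := by
    apply measureReal_mono
    · intro ξ hξ
      show a ^ 2 ≤ f ξ ^ 2
      rw [← sq_abs (f ξ)]
      exact pow_le_pow_left₀ ha.le (le_of_lt hξ) 2
    · exact measure_ne_top _ _
  rw [le_div_iff₀ (by positivity)]
  calc (Γ κ).real {ξ | a < |f ξ|} * a ^ 2 ≤ (Γ κ).real {ξ | a ^ 2 ≤ f ξ ^ 2} * a ^ 2 := by gcongr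
    _ = a ^ 2 * (Γ κ).real {ξ | a ^ 2 ≤ f ξ ^ 2} := mul_comm _ _
    _ ≤ _ := h1.trans hV

theorem sup_tail (b : ℝ) (hb : 0 ≤ b) :
    (Γ κ).real {ξ | ∃ x, b < |ξ x|} ≤ Fintype.card κ * (2 * Real.exp (-(b ^ 2 / 2))) := by
  have h1 : {ξ : κ → ℝ | ∃ x, b < |ξ x|} = ⋃ x ∈ (Finset.univ : Finset κ), {ξ | b < |ξ x|} := by
    ext ξ
    simp
  rw [h1]
  refine (measureReal_biUnion_finset_le _ _).trans ?_
  have h2 : ∀ x : κ, (Γ κ).real {ξ | b < |ξ x|} ≤ 2 * Real.exp (-(b ^ 2 / 2)) := by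
    intro x
    have h3 : (Γ κ).map (fun ξ : κ → ℝ => ξ x) = γ :=
      (measurePreserving_eval (fun _ : κ => γ) x).map_eq
    have h4 : (Γ κ).real {ξ | b < |ξ x|} = γ.real {s | b < |s|} := by
      conv_rhs => rw [← h3]
      rw [map_measureReal_apply (by fun_prop) (measurableSet_lt (by fun_prop) (by fun_prop))]
      rfl
    rw [h4]
    exact Pool.Agent.Y661.BG.tail b hb
  refine (Finset.sum_le_sum fun x _ => h2 x).trans ?_
  rw [Finset.sum_const, Finset.card_univ, nsmul_eq_mul]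

end poly

section torus

open Pool.Agent.W788.MFP
open Pool.Agent.H4R2.AE Pool.Agent.H4R2.AE.Lin

variable {d L : ℕ} [NeZero L]

/-- the multiplier of the resolvent -/
noncomputable def mt (t : ℝ) (k : T d L) : ℝ := (∑ i, om (((k i).val : ℝ) / L) + t)⁻¹

theorem adj_om (k : T d L) : Four.adj k = 2 * d - ∑ i, om (((k i).val : ℝ) / L) := by
  unfold Four.adj om
  rw [Finset.sum_sub_distrib]
  simp only [Finset.sum_const, Finset.card_univ, Fintype.card_fin, nsmul_eq_mul]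
  have h1 : ∀ i, 2 * (ZMod.stdAddChar (k i) : ℂ).re =
      2 * Real.cos (2 * Real.pi * (((k i).val : ℝ) / L)) := fun i => by
    rw [Pool.Agent.TH794.QD.char_re]
  simp only [h1]
  ring

theorem om_sum_nonneg (k : T d L) : 0 ≤ ∑ i, om (((k i).val : ℝ) / L) :=
  Finset.sum_nonneg fun i _ => om_nonneg _

theorem mt_neg (t : ℝ) (k : T d L) : mt t (-k) = mt t k := by
  unfold mt
  have h1 := adj_om (-k)
  have h2 := adj_om k
  rw [Four.adj_neg] at h1
  have h3 : ∑ i, om ((((-k) i).val : ℝ) / L) = ∑ i, om (((k i).val : ℝ) / L) := by linarith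
  rw [h3]

theorem mt_pos (t : ℝ) (ht : 0 < t) (k : T d L) : 0 < mt t k := by
  unfold mt
  have := om_sum_nonneg k
  positivity

theorem mt_le (t : ℝ) (ht : 0 < t) (k : T d L) : mt t k ≤ t⁻¹ := by
  unfold mt
  have := om_sum_nonneg k
  exact inv_anti₀ ht (by linarith)

/-- the solution of `(A + t) g = V` -/
noncomputable def gg (t : ℝ) (V : T d L → ℝ) : T d L → ℝ := Four.Op (mt t) V

theorem gg_eq (t : ℝ) (ht : 0 < t) (V : T d L → ℝ) (x : T d L) :
    LapW (fun _ => 1) (gg t V) x + t * gg t V x = V x := by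
  have h1 := Four.Op_Op (fun k => Four.adj k - (2 * d + t)) (mt t) V
    (fun k => by rw [Four.adj_neg]) (mt_neg t)
  have h2 : (fun k : T d L => (Four.adj k - (2 * d + t)) * mt t k) = fun _ => -1 := by
    funext k
    rw [adj_om]
    unfold mt
    have := om_sum_nonneg k
    have h3 : ∑ i, om (((k i).val : ℝ) / L) + t ≠ 0 := by positivity
    field_simp
    ring
  rw [h2] at h1
  have h4 : Four.Op (fun _ => (-1 : ℝ)) V = fun x => -V x := by
    apply Four.ft_inj
    intro k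
    rw [Four.ft_Op _ _ fun _ => rfl]
    unfold Four.ft
    rw [Finset.mul_sum]
    refine Finset.sum_congr rfl fun y _ => ?_
    push_cast
    ring
  rw [h4, Four.Op_adj] at h1
  have h5 := congrFun h1 x
  unfold LapW
  have h6 : ∑ i : Fin d, ((fun _ => (1 : ℝ)) x * (fun _ => (1 : ℝ)) (x + Pi.single i 1) *
      (gg t V x - gg t V (x + Pi.single i 1)) + (fun _ => (1 : ℝ)) x *
      (fun _ => (1 : ℝ)) (x - Pi.single i 1) * (gg t V x - gg t V (x - Pi.single i 1))) =
      2 * d * gg t V x - ∑ i : Fin d, (gg t V (x + Pi.single i 1) + gg t V (x - Pi.single i 1)) := by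
    have h7 : ∀ i : Fin d, ((fun _ => (1 : ℝ)) x * (fun _ => (1 : ℝ)) (x + Pi.single i 1) *
        (gg t V x - gg t V (x + Pi.single i 1)) + (fun _ => (1 : ℝ)) x *
        (fun _ => (1 : ℝ)) (x - Pi.single i 1) * (gg t V x - gg t V (x - Pi.single i 1))) =
        2 * gg t V x - (gg t V (x + Pi.single i 1) + gg t V (x - Pi.single i 1)) := by
      intro i
      ring
    rw [Finset.sum_congr rfl fun i _ => h7 i, Finset.sum_sub_distrib]
    simp only [Finset.sum_const, Finset.card_univ, Fintype.card_fin, nsmul_eq_mul]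
    ring
  unfold gg at h6 ⊢
  linarith

end torus

end Pool.Agent.Y661.ED
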