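import Pool.Agent.TH794.QD.Riem

/-! One-dimensional heat sums: comparison with the integral and decay. -/

set_option autoImplicit false
set_option linter.unusedSectionVars false

open scoped BigOperators Topology
open MeasureTheory Set Filter

namespace Pool.Agent.Y661.ED

/-- the symbol of the one-dimensional Laplacian -/
noncomputable def om (x : ℝ) : ℝ := 2 - 2 * Real.cos (2 * Real.pi * x)

theorem om_cont : Continuous om := by
  unfold om
  fun_prop

theorem om_nonneg (x : ℝ) : 0 ≤ om x := by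
  unfold om
  have := Real.cos_le_one (2 * Real.pi * x)
  linarith

theorem om_le (x : ℝ) : om x ≤ 4 := by
  unfold om
  have := Real.neg_one_le_cos (2 * Real.pi * x)
  linarith

theorem om_eq (x : ℝ) : om x = 4 * Real.sin (Real.pi * x) ^ 2 := by
  unfold om
  have h1 : 2 * Real.pi * x = 2 * (Real.pi * x) := by ring
  rw [h1, Real.cos_two_mul, Real.sin_sq]
  ring

theorem om_lip (x y : ℝ) : |om x - om y| ≤ 4 * Real.pi * |x - y| := by
  unfold om
  have h1 : (2 - 2 * Real.cos (2 * Real.pi * x)) - (2 - 2 * Real.cos (2 * Real.pi * y)) =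
      2 * (Real.cos (2 * Real.pi * y) - Real.cos (2 * Real.pi * x)) := by ring
  rw [h1, abs_mul, abs_of_pos (by norm_num : (0 : ℝ) < 2)]
  have h2 : |Real.cos (2 * Real.pi * y) - Real.cos (2 * Real.pi * x)| ≤
      |2 * Real.pi * y - 2 * Real.pi * x| := by
    rw [Real.cos_sub_cos]
    have h3 := Real.abs_sin_le_one ((2 * Real.pi * y + 2 * Real.pi * x) / 2)
    have h4 : |Real.sin ((2 * Real.pi * y - 2 * Real.pi * x) / 2)| ≤
        |(2 * Real.pi * y - 2 * Real.pi * x) / 2| := Real.abs_sin_le_abs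
    rw [abs_mul, abs_mul, abs_neg, abs_of_pos (by norm_num : (0 : ℝ) < 2)]
    have h5 : |(2 * Real.pi * y - 2 * Real.pi * x) / 2| = |2 * Real.pi * y - 2 * Real.pi * x| / 2 := by
      rw [abs_div, abs_of_pos (by norm_num : (0 : ℝ) < 2)]
    rw [h5] at h4
    calc 2 * |Real.sin ((2 * Real.pi * y + 2 * Real.pi * x) / 2)| *
          |Real.sin ((2 * Real.pi * y - 2 * Real.pi * x) / 2)| ≤
          2 * 1 * (|2 * Real.pi * y - 2 * Real.pi * x| / 2) := by gcongr
      _ = _ := by ring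
  have h6 : |2 * Real.pi * y - 2 * Real.pi * x| = 2 * Real.pi * |x - y| := by
    rw [← mul_sub, abs_mul, abs_of_pos Real.two_pi_pos, abs_sub_comm]
  rw [h6] at h2
  linarith

theorem exp_lip {a b : ℝ} (ha : 0 ≤ a) (hb : 0 ≤ b) : |Real.exp (-a) - Real.exp (-b)| ≤ |a - b| := by
  wlog h : a ≤ b with H
  · rw [abs_sub_comm, abs_sub_comm a b]
    exact H hb ha (le_of_not_ge h)
  have h1 : Real.exp (-b) ≤ Real.exp (-a) := Real.exp_le_exp.2 (by linarith)
  rw [abs_of_nonneg (by linarith), abs_of_nonpos (by linarith)]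
  have h2 : Real.exp (-b) = Real.exp (-a) * Real.exp (-(b - a)) := by
    rw [← Real.exp_add]
    congr 1
    ring
  have h3 : 1 - (b - a) ≤ Real.exp (-(b - a)) := by
    have := Real.add_one_le_exp (-(b - a))
    linarith
  have h4 : Real.exp (-a) ≤ 1 := Real.exp_le_one_iff.2 (by linarith)
  have h5 : 0 < Real.exp (-a) := Real.exp_pos _
  rw [h2]
  nlinarith

/-- the heat sum -/
noncomputable def PL (L : ℕ) [NeZero L] (s : ℝ) : ℝ :=
  (L : ℝ)⁻¹ * ∑ k : ZMod L, Real.exp (-(s * om ((k.val : ℝ) / L)))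

/-- the heat integral -/
noncomputable def P1 (s : ℝ) : ℝ := ∫ x in (0 : ℝ)..1, Real.exp (-(s * om x))

variable (L : ℕ) [NeZero L]

theorem L_pos : (0 : ℝ) < L := by exact_mod_cast Nat.pos_of_ne_zero (NeZero.ne L)

theorem PL_nonneg (s : ℝ) : 0 ≤ PL L s := by
  unfold PL
  positivity

theorem PL_le_one (s : ℝ) (hs : 0 ≤ s) : PL L s ≤ 1 := by
  unfold PL
  have h1 : ∑ k : ZMod L, Real.exp (-(s * om ((k.val : ℝ) / L))) ≤ ∑ _k : ZMod L, (1 : ℝ) := by
    refine Finset.sum_le_sum fun k _ => ?_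
    have := mul_nonneg hs (om_nonneg ((k.val : ℝ) / L))
    exact Real.exp_le_one_iff.2 (by linarith)
  have h2 : ∑ _k : ZMod L, (1 : ℝ) = L := by
    rw [Finset.sum_const, Finset.card_univ, ZMod.card, nsmul_eq_mul, mul_one]
  rw [h2] at h1
  have hL := L_pos L
  rw [inv_mul_le_iff₀ hL, mul_one]
  exact h1

theorem P1_nonneg (s : ℝ) : 0 ≤ P1 s := by
  unfold P1
  exact intervalIntegral.integral_nonneg (by norm_num) fun x _ => (Real.exp_pos _).le

theorem PL_sub (s : ℝ) (hs : 0 ≤ s) : |PL L s - P1 s| ≤ 13 * s / L := by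
  have h1 := Pool.Agent.TH794.QD.riemann L (fun x => (Real.exp (-(s * om x)) : ℂ)) (13 * s)
    (by
      have := om_cont
      fun_prop) (by
      intro x y
      rw [← Complex.ofReal_sub, Complex.norm_real, Real.norm_eq_abs]
      have h2 := exp_lip (mul_nonneg hs (om_nonneg x)) (mul_nonneg hs (om_nonneg y))
      rw [← mul_sub, abs_mul, abs_of_nonneg hs] at h2
      have h3 := om_lip x y
      have h4 : 4 * Real.pi ≤ 13 := by
        have := Real.pi_lt_d2
        linarith
      calc |Real.exp (-(s * om x)) - Real.exp (-(s * om y))| ≤ s * |om x - om y| := h2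
        _ ≤ s * (4 * Real.pi * |x - y|) := by gcongr
        _ ≤ s * (13 * |x - y|) := by gcongr
        _ = _ := by ring)
  have h2 : ((L : ℝ) : ℂ)⁻¹ * ∑ k : ZMod L, (Real.exp (-(s * om ((k.val : ℝ) / L))) : ℂ) -
      ∫ x in (0 : ℝ)..1, (Real.exp (-(s * om x)) : ℂ) = ((PL L s - P1 s : ℝ) : ℂ) := by
    unfold PL P1
    rw [intervalIntegral.integral_ofReal]
    push_cast
    rfl
  rw [h2, Complex.norm_real, Real.norm_eq_abs] at h1
  exact h1

theorem om_lower (x : ℝ) (h0 : 0 ≤ x) (h1 : x ≤ 1) :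
    16 * x ^ 2 ≤ om x ∨ 16 * (1 - x) ^ 2 ≤ om x := by
  have key : ∀ y : ℝ, 0 ≤ y → y ≤ 1 / 2 → 16 * y ^ 2 ≤ 4 * Real.sin (Real.pi * y) ^ 2 := by
    intro y hy hy2
    have h2 := Real.mul_le_sin (x := Real.pi * y) (by positivity) (by
      have := Real.pi_pos
      nlinarith)
    have h3 : 2 / Real.pi * (Real.pi * y) = 2 * y := by
      have := Real.pi_pos.ne'
      field_simp
    rw [h3] at h2
    have h4 : (2 * y) ^ 2 ≤ Real.sin (Real.pi * y) ^ 2 := pow_le_pow_left₀ (by positivity) h2 2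
    nlinarith
  rcases le_or_gt x (1 / 2) with h | h
  · left
    rw [om_eq]
    exact key x h0 h
  · right
    have h2 := key (1 - x) (by linarith) (by linarith)
    rw [om_eq]
    have h3 : Real.sin (Real.pi * (1 - x)) = Real.sin (Real.pi * x) := by
      have h4 : Real.pi * (1 - x) = Real.pi - Real.pi * x := by ring
      rw [h4, Real.sin_pi_sub]
    rw [h3] at h2
    exact h2

theorem PL_le (s : ℝ) (hs : 0 < s) : PL L s ≤ 2 / L + 1 / Real.sqrt s := by
  have hL := L_pos L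
  have hLn : 0 < L := Nat.pos_of_ne_zero (NeZero.ne L)
  obtain ⟨f, hf⟩ : ∃ f : ℝ → ℝ, f = fun x => Real.exp (-(16 * s / L ^ 2) * x ^ 2) := ⟨_, rfl⟩
  have hfx : ∀ x, f x = Real.exp (-(16 * s / L ^ 2) * x ^ 2) := fun x => by rw [hf]
  have hf0 : ∀ x, 0 ≤ f x := fun x => by rw [hfx]; exact (Real.exp_pos _).le
  have hf1 : ∀ x, f x ≤ 1 := fun x => by
    rw [hfx]
    apply Real.exp_le_one_iff.2
    have : 0 ≤ 16 * s / (L : ℝ) ^ 2 * x ^ 2 := by positivity
    linarith
  have h1 : ∑ k : ZMod L, Real.exp (-(s * om ((k.val : ℝ) / L))) =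
      ∑ i ∈ Finset.range L, Real.exp (-(s * om ((i : ℝ) / L))) := by
    have h2 := Pool.Agent.TH794.QD.sum_zmod L (fun i => (Real.exp (-(s * om ((i : ℝ) / L))) : ℂ))
    exact_mod_cast h2
  have h2 : ∀ i ∈ Finset.range L, Real.exp (-(s * om ((i : ℝ) / L))) ≤
      f i + f ((L - i : ℕ) : ℝ) := by
    intro i hi
    have hi' : i < L := Finset.mem_range.1 hi
    have hi1 : (i : ℝ) ≤ L := by exact_mod_cast hi'.le
    rcases om_lower ((i : ℝ) / L) (by positivity) (by rw [div_le_one hL]; exact hi1) with h | h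
    · have h3 : Real.exp (-(s * om ((i : ℝ) / L))) ≤ f i := by
        rw [hfx]
        apply Real.exp_le_exp.2
        have h4 := mul_le_mul_of_nonneg_left h hs.le
        have h5 : -(16 * s / (L : ℝ) ^ 2) * (i : ℝ) ^ 2 = -(s * (16 * ((i : ℝ) / L) ^ 2)) := by
          rw [div_pow]
          ring
        rw [h5]
        linarith
      linarith [hf0 ((L - i : ℕ) : ℝ)]
    · have h3 : Real.exp (-(s * om ((i : ℝ) / L))) ≤ f ((L - i : ℕ) : ℝ) := by
        rw [hfx]
        apply Real.exp_le_exp.2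
        have h4 := mul_le_mul_of_nonneg_left h hs.le
        have h6 : ((L - i : ℕ) : ℝ) = L - i := by
          push_cast [Nat.cast_sub hi'.le]
          ring
        have h5 : -(16 * s / (L : ℝ) ^ 2) * ((L - i : ℕ) : ℝ) ^ 2 =
            -(s * (16 * (1 - (i : ℝ) / L) ^ 2)) := by
          rw [h6]
          field_simp
        rw [h5]
        linarith
      linarith [hf0 (i : ℝ)]
  have h3 : ∑ i ∈ Finset.range L, f ((L - i : ℕ) : ℝ) = ∑ i ∈ Finset.range L, f ((i + 1 : ℕ) : ℝ) := by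
    rw [← Finset.sum_range_reflect]
    refine Finset.sum_congr rfl fun i hi => ?_
    have hi' : i < L := Finset.mem_range.1 hi
    have h4 : L - (L - 1 - i) = i + 1 := by omega
    rw [h4]
  have h4 : ∑ i ∈ Finset.range L, f (i : ℝ) ≤ 1 + ∑ i ∈ Finset.range L, f ((i + 1 : ℕ) : ℝ) := by
    have h5 : ∑ i ∈ Finset.range L, f (i : ℝ) ≤ ∑ i ∈ Finset.range (L + 1), f (i : ℝ) := by
      rw [Finset.sum_range_succ]
      linarith [hf0 (L : ℝ)]
    rw [Finset.sum_range_succ'] at h5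
    have h6 := hf1 ((0 : ℕ) : ℝ)
    linarith
  have h5 : ∑ i ∈ Finset.range L, f ((i + 1 : ℕ) : ℝ) ≤ ∫ x in Ioi (0 : ℝ), f x := by
    have ha : AntitoneOn f (Icc (0 : ℝ) (0 + (L : ℕ))) := by
      intro x hx y hy hxy
      rw [hfx, hfx]
      apply Real.exp_le_exp.2
      have h6 : x ^ 2 ≤ y ^ 2 := pow_le_pow_left₀ hx.1 hxy 2
      have h7 : 0 ≤ 16 * s / (L : ℝ) ^ 2 := by positivity
      nlinarith
    have h6 := ha.sum_le_integral
    simp only [zero_add] at h6
    refine h6.trans ?_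
    rw [intervalIntegral.integral_of_le hL.le]
    apply setIntegral_mono_set
    · rw [hf]
      exact (integrable_exp_neg_mul_sq (b := 16 * s / (L : ℝ) ^ 2) (by positivity)).integrableOn
    · exact Filter.Eventually.of_forall fun x => hf0 x
    · exact Eventually.of_forall fun x hx => hx.1
  have h6 : ∫ x in Ioi (0 : ℝ), f x ≤ L / (2 * Real.sqrt s) := by
    rw [hf]
    rw [integral_gaussian_Ioi]
    have h7 : Real.pi / (16 * s / (L : ℝ) ^ 2) = (L : ℝ) ^ 2 * (Real.pi / 16) / s := by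
      field_simp
    rw [h7, Real.sqrt_div (by positivity), Real.sqrt_mul (by positivity), Real.sqrt_sq hL.le]
    have h8 : Real.sqrt (Real.pi / 16) ≤ 1 := by
      rw [Real.sqrt_le_one]
      have := Real.pi_lt_d2
      linarith
    have h9 : 0 < Real.sqrt s := Real.sqrt_pos.2 hs
    rw [div_div, mul_comm (Real.sqrt s) 2]
    apply div_le_div_of_nonneg_right _ (by positivity)
    calc (L : ℝ) * Real.sqrt (Real.pi / 16) ≤ L * 1 := by gcongr
      _ = L := mul_one _
  have h7 : ∑ k : ZMod L, Real.exp (-(s * om ((k.val : ℝ) / L))) ≤ 1 + L / Real.sqrt s := by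
    rw [h1]
    refine (Finset.sum_le_sum h2).trans ?_
    rw [Finset.sum_add_distrib, h3]
    have h8 : (L : ℝ) / Real.sqrt s = 2 * (L / (2 * Real.sqrt s)) := by
      have : Real.sqrt s ≠ 0 := (Real.sqrt_pos.2 hs).ne'
      field_simp
    rw [h8]
    linarith
  unfold PL
  calc (L : ℝ)⁻¹ * ∑ k : ZMod L, Real.exp (-(s * om ((k.val : ℝ) / L))) ≤
      (L : ℝ)⁻¹ * (1 + L / Real.sqrt s) := by gcongr
    _ = 1 / L + 1 / Real.sqrt s := by
        field_simp
    _ ≤ 2 / L + 1 / Real.sqrt s := by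
        gcongr
        norm_num

theorem P1_le (s : ℝ) (hs : 0 < s) : P1 s ≤ 1 / Real.sqrt s := by
  have h1 : Tendsto (fun n : ℕ => (13 * s + 2) * ((n : ℝ) + 1)⁻¹ + 1 / Real.sqrt s) atTop
      (𝓝 ((13 * s + 2) * 0 + 1 / Real.sqrt s)) := by
    refine (Tendsto.const_mul _ ?_).add tendsto_const_nhds
    have := tendsto_one_div_add_atTop_nhds_zero_nat (𝕜 := ℝ)
    simpa [one_div] using this
  rw [mul_zero, zero_add] at h1
  refine ge_of_tendsto h1 (Eventually.of_forall fun n => ?_)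
  have h2 := PL_sub (n + 1) s hs.le
  have h3 := PL_le (n + 1) s hs
  have h4 := (abs_le.1 h2).1
  push_cast at h2 h3 h4
  have h5 : (13 * s + 2) * ((n : ℝ) + 1)⁻¹ = 13 * s / ((n : ℝ) + 1) + 2 / ((n : ℝ) + 1) := by
    rw [← add_div, div_eq_mul_inv]
  rw [h5]
  linarith

theorem P1_le_one (s : ℝ) (hs : 0 ≤ s) : P1 s ≤ 1 := by
  have h1 : Tendsto (fun n : ℕ => (13 * s) * ((n : ℝ) + 1)⁻¹ + 1) atTop
      (𝓝 ((13 * s) * 0 + 1)) := by
    refine (Tendsto.const_mul _ ?_).add tendsto_const_nhds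
    have := tendsto_one_div_add_atTop_nhds_zero_nat (𝕜 := ℝ)
    simpa [one_div] using this
  rw [mul_zero, zero_add] at h1
  refine ge_of_tendsto h1 (Eventually.of_forall fun n => ?_)
  have h2 := PL_sub (n + 1) s hs
  have h3 := PL_le_one (n + 1) s hs
  have h4 := (abs_le.1 h2).1
  push_cast at h2 h3 h4
  have h5 : (13 * s) * ((n : ℝ) + 1)⁻¹ = 13 * s / ((n : ℝ) + 1) := by
    rw [div_eq_mul_inv]
  rw [h5]
  linarith

theorem PL_cont : Continuous (PL L) := by
  unfold PL
  fun_prop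

theorem P1_cont : Continuous P1 := by
  unfold P1
  have h := om_cont
  exact intervalIntegral.continuous_parametric_intervalIntegral_of_continuous' (by fun_prop) 0 1

end Pool.Agent.Y661.ED
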