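import Pool.Agent.H4R2.LO.Fin
import Pool.Agent.H4R2.AE.TorG
import Pool.Agent.H695R3.AN.Prob
import Pool.Agent.W788.Fin3

/-! The known facts near the effective band edge, in one form for all dimensions at least three. -/

set_option autoImplicit false
set_option linter.unusedSectionVars false

open scoped BigOperators ENNReal
open MeasureTheory ProbabilityTheory

namespace Pool.Agent.Y661.ED

open Pool.Agent.H4R2
open Pool.Agent.H4R2.AE (T Hop)
open Pool.Agent.H4R2.LO (Zd IsGen L2f)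

/-- flat states on tori, spread out states and localization, relative to the effective edge `Es` -/
def Pkg (d : ℕ) (η k K σ Es : ℝ) : Prop :=
  (∀ (L : ℕ) [NeZero L], (L : ℝ) ≤ σ ^ (-(7 / 4) : ℝ) →
    ∃ G : Set (T d L → ℝ), MeasurableSet G ∧
      1 - Real.exp (-(k * σ ^ (-(1 / 4) : ℝ))) ≤
        (Measure.pi fun _ : T d L => gaussianReal 0 1).real G ∧
      ∀ V ∈ G, ∃ (E0 : ℝ) (ψ : T d L → ℝ), |E0 - Es| ≤ K / (L : ℝ) ^ 2 ∧
        (∀ x, 1 ≤ ψ x ∧ ψ x ≤ 1 + η) ∧ ∀ x, Hop σ V ψ x = E0 * ψ x) ∧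
  ∀ κ : ℝ, σ ^ 3 ≤ κ → κ ≤ 2 * σ ^ 2 →
    (∃ G : Set (Zd d → ℝ), MeasurableSet G ∧
      1 - Real.exp (-(k * Real.sqrt κ / σ ^ 2)) / 2 ≤
        (Measure.infinitePi fun _ : Zd d => gaussianReal 0 1).real G ∧
      ∀ ω ∈ G, ∀ E : ℝ, 2 * d + E ≤ Es + κ → ∀ u : Zd d → ℂ,
        IsGen (-1) (fun x => σ * ω x) E u → L2f u →
        ∀ x : Zd d, ‖x‖ ≤ Real.exp (k * Real.sqrt κ / σ ^ 2) →
          ‖u x‖ ^ 2 ≤ K * κ ^ ((d : ℝ) / 2) * ∑' y, ‖u y‖ ^ 2) ∧
    ∀ᵐ ω ∂(Measure.infinitePi fun _ : Zd d => gaussianReal 0 1),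
      LO.Main.Dec d (-1) (fun x => σ * ω x) (Set.Iic (Es - 2 * d - κ))
        (k * Real.sqrt κ / Real.log (2 / (κ * σ)))

theorem par (σ : ℝ) (hσ : 0 < σ) : ∃ a : ℝ, 0 < a ∧ σ = (a ^ 8)⁻¹ ∧
    σ ^ (-(7 / 4) : ℝ) = a ^ 14 ∧ σ ^ (-(1 / 4) : ℝ) = a ^ 2 ∧
    ∀ M : ℝ, 0 < M → σ ≤ (M ^ 8)⁻¹ → M ≤ a := by
  obtain ⟨a, ha⟩ : ∃ a : ℝ, a = σ ^ (-(1 / 8) : ℝ) := ⟨_, rfl⟩
  have ha0 : 0 < a := by rw [ha]; exact Real.rpow_pos_of_pos hσ _
  have hp : ∀ n : ℕ, a ^ n = σ ^ (-(1 / 8) * (n : ℝ)) := by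
    intro n
    rw [ha, ← Real.rpow_natCast, ← Real.rpow_mul hσ.le]
  have h8 : a ^ 8 = σ⁻¹ := by
    rw [hp 8, ← Real.rpow_neg_one]
    norm_num
  refine ⟨a, ha0, by rw [h8, inv_inv], ?_, ?_, ?_⟩
  · rw [hp 14]
    norm_num
  · rw [hp 2]
    norm_num
  · intro M hM h
    have h1 : M ^ 8 ≤ a ^ 8 := by
      rw [h8]
      rw [le_inv_comm₀ (by positivity) hσ]
      exact h
    exact le_of_pow_le_pow_left₀ (by norm_num) ha0.le h1

theorem pkg3 (η : ℝ) (hη : 0 < η) (hη' : η ≤ 1) :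
    ∃ k K : ℝ, 0 < k ∧ 0 < K ∧ ∀ σ : ℝ, 0 < σ → σ ≤ k → ∃ Es : ℝ, Pkg 3 η k K σ Es := by
  obtain ⟨k, K, hk, hk1, hK, HF⟩ := Pool.Agent.W788.Fin3.fin η hη hη'
  obtain ⟨M, hM⟩ : ∃ M : ℝ, M = max 2 (max (8 / k) (64 * K)) := ⟨_, rfl⟩
  have hM2 : 2 ≤ M := by rw [hM]; exact le_max_left _ _
  have hMk : 8 / k ≤ M := by rw [hM]; exact (le_max_left _ _).trans (le_max_right _ _)
  have hMK : 64 * K ≤ M := by rw [hM]; exact (le_max_right _ _).trans (le_max_right _ _)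
  obtain ⟨k', hk'⟩ : ∃ k' : ℝ, k' = min k ((M ^ 8)⁻¹) := ⟨_, rfl⟩
  have hk'0 : 0 < k' := by rw [hk']; positivity
  have hk'k : k' ≤ k := by rw [hk']; exact min_le_left _ _
  have hk'M : k' ≤ (M ^ 8)⁻¹ := by rw [hk']; exact min_le_right _ _
  refine ⟨k', K, hk'0, by linarith, ?_⟩
  intro σ hσ hσk
  obtain ⟨a, ha0, hσa, h74, h14, haM⟩ := par σ hσ
  have haM' : M ≤ a := haM M (by linarith) (hσk.trans hk'M)
  have ha1 : 1 ≤ a := by linarith
  have hak : 8 ≤ k * a := by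
    have := hMk.trans haM'
    rw [div_le_iff₀ hk] at this
    linarith
  have haK : 64 * K ≤ a := hMK.trans haM'
  obtain ⟨Es, hEs, H0, H1, H2⟩ := HF σ hσ (hσk.trans hk'k)
  have hσ1 : σ ≤ 1 / 2 := (hσk.trans hk'k).trans hk1
  have hlog : Real.log (1 / σ) ≤ 8 * a := by
    have h1 : 1 / σ = a ^ 8 := by rw [hσa, one_div, inv_inv]
    rw [h1, Real.log_pow]
    have := Real.log_le_self ha0.le
    push_cast
    linarith
  have hlog0 : 0 ≤ Real.log (1 / σ) := Real.log_nonneg (by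
    rw [le_div_iff₀ hσ]
    linarith)
  have hwin : K * (σ ^ 2 * Real.log (1 / σ)) ^ 2 ≤ σ ^ 3 := by
    calc K * (σ ^ 2 * Real.log (1 / σ)) ^ 2 ≤ K * (σ ^ 2 * (8 * a)) ^ 2 := by gcongr
      _ = 64 * K * (σ ^ 4 * a ^ 2) := by ring
      _ ≤ a * (σ ^ 4 * a ^ 2) := by gcongr
      _ = σ ^ 3 * (σ * a ^ 3) := by ring
      _ ≤ σ ^ 3 * 1 := by
          gcongr
          rw [hσa, inv_mul_le_iff₀ (by positivity), mul_one]
          exact pow_le_pow_right₀ ha1 (by norm_num)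
      _ = σ ^ 3 := mul_one _
  refine ⟨Es, ?_, ?_⟩
  · intro L _ hL
    rw [h74] at hL
    have hL0 : (0 : ℝ) < L := by exact_mod_cast Nat.pos_of_ne_zero (NeZero.ne L)
    obtain ⟨G, hG, hP, hF⟩ := H1 L (by
      calc (L : ℝ) * (σ ^ 2 * Real.log (1 / σ)) ≤ a ^ 14 * (σ ^ 2 * (8 * a)) := by gcongr
        _ = 8 / a := by
            rw [hσa]
            field_simp
        _ ≤ k := by
            rw [div_le_iff₀ ha0]
            exact hak)
    refine ⟨G, hG, ?_, hF⟩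
    refine le_trans ?_ hP
    have h1 : k' * σ ^ (-(1 / 4) : ℝ) ≤ k / (L * σ ^ 2) := by
      rw [h14, le_div_iff₀ (by positivity)]
      calc k' * a ^ 2 * (L * σ ^ 2) ≤ k * a ^ 2 * (a ^ 14 * σ ^ 2) := by gcongr
        _ = k := by
            rw [hσa]
            field_simp
    have h2 : Real.exp (-(k / (L * σ ^ 2))) ≤ Real.exp (-(k' * σ ^ (-(1 / 4) : ℝ))) :=
      Real.exp_le_exp.2 (by linarith)
    linarith
  · intro κ hκ hκ2
    have hκ0 : 0 < κ := lt_of_lt_of_le (by positivity) hκ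
    have hκ1 : κ ≤ 1 := by
      refine hκ2.trans ?_
      have : σ ^ 2 ≤ (1 / 2) ^ 2 := by gcongr
      linarith
    have hsq : 0 ≤ Real.sqrt κ / σ ^ 2 := by positivity
    have hle : k' * Real.sqrt κ / σ ^ 2 ≤ k * Real.sqrt κ / σ ^ 2 := by gcongr
    refine ⟨?_, ?_⟩
    · obtain ⟨G, hG, hP, hF⟩ := H0 κ (hwin.trans hκ) hκ1
      refine ⟨G, hG, ?_, ?_⟩
      · refine le_trans ?_ hP
        have h2 : Real.exp (-(k * Real.sqrt κ / σ ^ 2)) ≤ Real.exp (-(k' * Real.sqrt κ / σ ^ 2)) :=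
          Real.exp_le_exp.2 (by linarith)
        linarith
      · intro ω hω E hE u hu hu2 x hx
        exact hF ω hω κ le_rfl hκ1 E hE u hu hu2 x (hx.trans (Real.exp_le_exp.2 hle))
    · have h1 := H2 κ (hwin.trans hκ) hκ1
      have hlg : 0 ≤ Real.log (2 / (κ * σ)) := by
        apply Real.log_nonneg
        rw [le_div_iff₀ (by positivity)]
        have : κ * σ ≤ 1 := mul_le_one₀ hκ1 hσ.le (by linarith)
        linarith
      filter_upwards [h1] with ω hω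
      exact LO.Main.dec_mono _ _ _ _ _ _ hω le_rfl (by gcongr)

theorem pkg4 (d : ℕ) (hd : 4 ≤ d) (η : ℝ) (hη : 0 < η) (hη' : η ≤ 1) :
    ∃ k K : ℝ, 0 < k ∧ 0 < K ∧ ∀ σ : ℝ, 0 < σ → σ ≤ k → ∃ Es : ℝ, Pkg d η k K σ Es := by
  obtain ⟨c1, hc1, HT1⟩ := Pool.Agent.H4R2.AE.TorG.main_torusG d hd η hη hη'
  obtain ⟨k0, s0, K0, hk0, hs0, hK0, HF⟩ := Pool.Agent.H4R2.LO.Fin.fin d (by omega) 1 c1
    one_pos hc1
  obtain ⟨C1, hC1, HL⟩ := Pool.Agent.H695R3.AN.latt d hd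
  obtain ⟨M0, hM0⟩ : ∃ M : ℝ, M = (1 + K0) ^ ((d : ℝ) / 2) := ⟨_, rfl⟩
  have hM00 : 0 < M0 := by rw [hM0]; exact Real.rpow_pos_of_pos (by linarith) _
  have hC1M : 0 < C1 * M0 := by positivity
  obtain ⟨M, hM⟩ : ∃ M : ℝ, M = max 2 (max (8 / k0) (max (2 / k0 ^ 2) (1024 / k0 ^ 4))) :=
    ⟨_, rfl⟩
  have hM2 : 2 ≤ M := by rw [hM]; exact le_max_left _ _
  have hMk : 8 / k0 ≤ M := by rw [hM]; exact (le_max_left _ _).trans (le_max_right _ _)
  have hMk2 : 2 / k0 ^ 2 ≤ M := by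
    rw [hM]; exact (le_max_left _ _).trans ((le_max_right _ _).trans (le_max_right _ _))
  have hMk4 : 1024 / k0 ^ 4 ≤ M := by
    rw [hM]; exact (le_max_right _ _).trans ((le_max_right _ _).trans (le_max_right _ _))
  obtain ⟨k', hk'⟩ : ∃ k' : ℝ, k' = min (min (k0 / 4) c1) (min s0 ((M ^ 8)⁻¹)) := ⟨_, rfl⟩
  have hk'0 : 0 < k' := by rw [hk']; positivity
  have hk'k : k' ≤ k0 / 4 := by rw [hk']; exact (min_le_left _ _).trans (min_le_left _ _)
  have hk'c : k' ≤ c1 := by rw [hk']; exact (min_le_left _ _).trans (min_le_right _ _)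
  have hk's : k' ≤ s0 := by rw [hk']; exact (min_le_right _ _).trans (min_le_left _ _)
  have hk'M : k' ≤ (M ^ 8)⁻¹ := by rw [hk']; exact (min_le_right _ _).trans (min_le_right _ _)
  refine ⟨k', K0 + C1 * M0, hk'0, by linarith, ?_⟩
  intro σ hσ hσk
  obtain ⟨a, ha0, hσa, h74, h14, haM⟩ := par σ hσ
  have haM' : M ≤ a := haM M (by linarith) (hσk.trans hk'M)
  have ha2 : 2 ≤ a := hM2.trans haM'
  have ha1 : 1 ≤ a := by linarith
  have hak : 8 ≤ a * k0 := by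
    have := hMk.trans haM'
    rwa [div_le_iff₀ hk0] at this
  have hak2 : 2 ≤ a * k0 ^ 2 := by
    have := hMk2.trans haM'
    rwa [div_le_iff₀ (by positivity)] at this
  have hak4 : 1024 ≤ a * k0 ^ 4 := by
    have := hMk4.trans haM'
    rwa [div_le_iff₀ (by positivity)] at this
  have hσ1 : σ ≤ 1 / 2 := by
    rw [hσa, inv_le_comm₀ (by positivity) (by norm_num)]
    have : a ≤ a ^ 8 := le_self_pow₀ ha1 (by norm_num)
    norm_num
    linarith
  obtain ⟨s, hs⟩ : ∃ s, s = Pool.Agent.H4R2.AE.scaleG d σ := ⟨_, rfl⟩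
  have hspos : 0 < s := by rw [hs]; exact Pool.Agent.H4R2.AE.TorG.scaleG_pos d σ hσ
  have hsσ : s ≤ σ := by
    rw [hs]
    unfold Pool.Agent.H4R2.AE.scaleG
    split_ifs
    · exact le_rfl
    · nlinarith
  have hsa : a ^ 8 ≤ 1 / s := by
    rw [le_div_iff₀ hspos]
    calc a ^ 8 * s ≤ a ^ 8 * σ := by gcongr
      _ = 1 := by rw [hσa]; field_simp
  have hks : k0 * a ^ 8 ≤ k0 / s := by
    rw [div_eq_mul_one_div k0 s]
    gcongr
  have hks2 : k0 * a ^ 8 / 2 ≤ k0 / (2 * s) := by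
    have : k0 / (2 * s) = k0 / s / 2 := by field_simp
    rw [this]
    linarith
  have haa : ∀ n : ℕ, n ≠ 0 → a ≤ a ^ n := fun n hn => le_self_pow₀ ha1 hn
  have hka8 : 8 ≤ k0 * a ^ 8 := by
    have := haa 8 (by norm_num)
    nlinarith
  obtain ⟨Es, hEs, H1, H2⟩ := HF (gaussianReal 0 1) Pool.Agent.H4R2.LO.Lw.reg_gauss s σ η 1 hspos
    (hsσ.trans (hσk.trans hk's)) hsσ (by linarith) hη' (by
      intro L _ hL
      rw [hs] at hL ⊢
      obtain ⟨E, hE, G, hG, hP, hflat⟩ := HT1 σ hσ (hσk.trans hk'c) L hL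
      exact ⟨E, hE, G, hG, hP, fun V hV => (hflat V hV).2⟩)
  refine ⟨Es, ?_, ?_⟩
  · intro L _ hL
    rw [h74] at hL
    obtain ⟨G, hG, hP, hF⟩ := H1 L (by
      refine hL.trans ?_
      refine le_trans ?_ (Real.exp_le_exp.2 hks)
      have h1 := Real.quadratic_le_exp_of_nonneg (x := k0 * a ^ 8) (by positivity)
      have h2 : a ^ 14 ≤ (k0 * a ^ 8) ^ 2 / 2 := by
        have h3 : (k0 * a ^ 8) ^ 2 / 2 = a ^ 14 * (a ^ 2 * k0 ^ 2 / 2) := by ring
        rw [h3]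
        apply le_mul_of_one_le_right (by positivity)
        have h4 : a * k0 ^ 2 ≤ a ^ 2 * k0 ^ 2 := by
          have := haa 2 (by norm_num)
          gcongr
        linarith
      linarith [show 0 ≤ k0 * a ^ 8 by positivity])
    refine ⟨G, hG, ?_, ?_⟩
    · refine le_trans ?_ hP
      have h1 : k' * σ ^ (-(1 / 4) : ℝ) ≤ k0 / s := by
        rw [h14]
        refine le_trans ?_ hks
        have h2 : a ^ 2 ≤ a ^ 8 := pow_le_pow_right₀ ha1 (by norm_num)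
        have h3 : k' ≤ k0 := by linarith
        gcongr
      have h2 : Real.exp (-k0 / s) ≤ Real.exp (-(k' * σ ^ (-(1 / 4) : ℝ))) :=
        Real.exp_le_exp.2 (by rw [neg_div]; linarith)
      linarith
    · intro V hV
      obtain ⟨E0, ψ, h1, h2, h3⟩ := hF V hV
      refine ⟨E0, ψ, h1.trans ?_, h2, h3⟩
      gcongr
      linarith
  · intro κ hκ hκ2
    have hκ0 : 0 < κ := lt_of_lt_of_le (by positivity) hκ
    have hσ2 : σ ^ 2 ≤ (1 / 2) ^ 2 := by gcongr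
    have hκ1 : κ ≤ 1 := by linarith
    have hsq : Real.sqrt κ ≤ 2 * σ := by
      rw [Real.sqrt_le_left (by positivity)]
      nlinarith
    have hsqs : k' * Real.sqrt κ / σ ^ 2 ≤ k0 / (2 * s) := by
      have h1 : k' * Real.sqrt κ / σ ^ 2 ≤ (k0 / 4) * (2 * σ) / σ ^ 2 := by gcongr
      have h2 : (k0 / 4) * (2 * σ) / σ ^ 2 = k0 / (2 * σ) := by field_simp; ring
      rw [h2] at h1
      refine h1.trans ?_
      gcongr
    have hexp24 : Real.exp (-k0 / (2 * s)) ≤ κ := by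
      refine le_trans ?_ hκ
      have h1 : Real.exp (-k0 / (2 * s)) = (Real.exp (k0 / (2 * s)))⁻¹ := by
        rw [← Real.exp_neg, neg_div]
      have h2 : σ ^ 3 = (a ^ 24)⁻¹ := by
        rw [hσa, inv_pow, ← pow_mul]
      rw [h1, h2]
      apply inv_anti₀ (by positivity)
      refine le_trans ?_ (Real.exp_le_exp.2 hks2)
      have h3 : Real.exp (k0 * a ^ 8 / 2) = Real.exp (k0 * a ^ 8 / 4) ^ 2 := by
        rw [← Real.exp_nat_mul]
        congr 1
        push_cast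
        ring
      rw [h3]
      have h4 := Real.quadratic_le_exp_of_nonneg (x := k0 * a ^ 8 / 4) (by positivity)
      have h5 : (k0 * a ^ 8 / 4) ^ 2 / 2 ≤ Real.exp (k0 * a ^ 8 / 4) := by
        linarith [show 0 ≤ k0 * a ^ 8 / 4 by positivity]
      calc a ^ 24 ≤ ((k0 * a ^ 8 / 4) ^ 2 / 2) ^ 2 := by
            have h6 : ((k0 * a ^ 8 / 4) ^ 2 / 2) ^ 2 = a ^ 24 * (a ^ 8 * k0 ^ 4 / 1024) := by ring
            rw [h6]
            apply le_mul_of_one_le_right (by positivity)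
            have h7 : a * k0 ^ 4 ≤ a ^ 8 * k0 ^ 4 := by
              have := haa 8 (by norm_num)
              gcongr
            linarith
        _ ≤ _ := by gcongr
    refine ⟨?_, ?_⟩
    · have hX : 10 ≤ Real.exp (k0 / (2 * s)) := by
        refine le_trans ?_ (Real.exp_le_exp.2 hks2)
        have h4 := Real.quadratic_le_exp_of_nonneg (x := k0 * a ^ 8 / 2) (by positivity)
        nlinarith
      obtain ⟨G, hG, hP, hG2⟩ := HL (gaussianReal 0 1) k0 s σ K0 Es hK0.le hX (by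
        intro L _ hL
        obtain ⟨G, hG, hP, hflat⟩ := H1 L hL
        refine ⟨G, hG, hP, fun V hV => ?_⟩
        obtain ⟨E0, ψ, h1, h2, h3⟩ := hflat V hV
        exact ⟨E0, ψ, h1, fun x => ⟨(h2 x).1, by linarith [(h2 x).2]⟩, h3⟩)
      refine ⟨G, hG, ?_, ?_⟩
      · refine le_trans ?_ hP
        have h1 : Real.exp (-k0 / s) ≤ Real.exp (-(k' * Real.sqrt κ / σ ^ 2)) / 2 := by
          have h2 : k0 / s = k0 / (2 * s) + k0 / (2 * s) := by field_simp; ring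
          have h3 : 1 ≤ k0 / (2 * s) := by linarith
          have h4 : Real.exp (-k0 / s) ≤ Real.exp (-(k' * Real.sqrt κ / σ ^ 2) + -1) :=
            Real.exp_le_exp.2 (by rw [neg_div, h2]; linarith)
          have h5 : Real.exp (-1) ≤ 1 / 2 := by
            rw [Real.exp_neg, inv_le_comm₀ (Real.exp_pos _) (by norm_num)]
            have := Real.add_one_le_exp (1 : ℝ)
            norm_num
            linarith
          rw [Real.exp_add] at h4
          have h6 := Real.exp_pos (-(k' * Real.sqrt κ / σ ^ 2))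
          nlinarith
        linarith
      · intro ω hω E hE u hu hu2 x hx
        have h1 := hG2 ω hω κ hexp24 hκ1 E hE u hu hu2 x (hx.trans (Real.exp_le_exp.2 hsqs))
        rw [← hM0] at h1
        refine h1.trans ?_
        have hsum0 : 0 ≤ ∑' y, ‖u y‖ ^ 2 := tsum_nonneg fun y => by positivity
        apply mul_le_mul_of_nonneg_right _ hsum0
        apply mul_le_mul_of_nonneg_right _ (Real.rpow_nonneg hκ0.le _)
        linarith
    · have h1 := H2 κ (by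
        refine le_trans (Real.exp_le_exp.2 ?_) hexp24
        rw [neg_div, neg_div]
        have h2 : k0 / s = k0 / (2 * s) + k0 / (2 * s) := by field_simp; ring
        have h3 : 0 ≤ k0 / (2 * s) := by positivity
        linarith) hκ1
      have hlg : 0 ≤ Real.log (2 / (κ * σ)) := by
        apply Real.log_nonneg
        rw [le_div_iff₀ (by positivity)]
        have : κ * σ ≤ 1 := mul_le_one₀ hκ1 hσ.le (by linarith)
        linarith
      filter_upwards [h1] with ω hω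
      exact LO.Main.dec_mono _ _ _ _ _ _ hω le_rfl (by
        have : k' ≤ k0 := by linarith
        gcongr)

theorem pkg (d : ℕ) (hd : 3 ≤ d) (η : ℝ) (hη : 0 < η) (hη' : η ≤ 1) :
    ∃ k K : ℝ, 0 < k ∧ 0 < K ∧ ∀ σ : ℝ, 0 < σ → σ ≤ k → ∃ Es : ℝ, Pkg d η k K σ Es := by
  rcases Nat.lt_or_ge d 4 with h | h
  · have h3 : d = 3 := by omega
    subst h3
    exact pkg3 η hη hη'
  · exact pkg4 d h η hη hη'

end Pool.Agent.Y661.ED
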