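import Pool.Agent.Y661.ED.Gau

/-! The good event for the Gaussian potential on a torus. -/

set_option autoImplicit false
set_option linter.unusedSectionVars false

open scoped BigOperators Topology
open MeasureTheory ProbabilityTheory Set Filter

namespace Pool.Agent.Y661.ED

open Pool.Agent.W788.MFP.Gm (γ Γ)
open Pool.Agent.W788.MFP
open Pool.Agent.H4R2.AE Pool.Agent.H4R2.AE.Lin

variable {d L : ℕ} [NeZero L]

theorem NN_eq : NN d L = (L : ℝ) ^ d := by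
  unfold NN
  rw [Finset.sum_const, Finset.card_univ, nsmul_eq_mul, mul_one]
  exact Four.card_T

/-- the matrix of the resolvent -/
noncomputable def Km (d L : ℕ) [NeZero L] (t : ℝ) : Matrix (T d L) (T d L) ℝ :=
  Matrix.of fun x y => Four.K (mt t) (x - y)

theorem Km_symm (t : ℝ) : (Km d L t).IsSymm := by
  ext x y
  show Four.K (mt t) (y - x) = Four.K (mt t) (x - y)
  rw [← Four.K_neg (mt t) (x - y), neg_sub]

theorem Km_form (t : ℝ) (V : T d L → ℝ) :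
    ∑ x, ∑ y, Km d L t x y * V x * V y = ∑ x, V x * gg t V x := by
  refine Finset.sum_congr rfl fun x _ => ?_
  unfold gg Four.Op
  rw [Finset.mul_sum]
  refine Finset.sum_congr rfl fun y _ => ?_
  show Four.K (mt t) (x - y) * V x * V y = V x * (Four.K (mt t) (x - y) * V y)
  ring

theorem Km_trace (t : ℝ) : ∑ x, Km d L t x x = NN d L * FL d L t := by
  have h1 : ∀ x : T d L, Km d L t x x = FL d L t := by
    intro x
    show Four.K (mt t) (x - x) = FL d L t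
    rw [sub_self]
    unfold Four.K FL Four.NN
    congr 1
    refine Finset.sum_congr rfl fun k _ => ?_
    have h2 : Four.e k (0 : T d L) = 1 := Four.e_zero k
    rw [h2, Complex.one_re, mul_one]
    rfl
  rw [Finset.sum_congr rfl fun x _ => h1 x]
  unfold NN
  rw [Finset.sum_mul]
  simp

theorem Km_sq (t : ℝ) (ht : 0 < t) : ∑ x, ∑ y, Km d L t x y ^ 2 ≤ NN d L * (t⁻¹) ^ 2 := by
  have h1 : ∀ x : T d L, ∑ y, Km d L t x y ^ 2 ≤ (t⁻¹) ^ 2 := by
    intro x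
    have h2 := Four.K_sq (mt t) (mt_neg t) x
    show ∑ y, Four.K (mt t) (x - y) ^ 2 ≤ (t⁻¹) ^ 2
    rw [h2]
    have h3 : ∑ k : T d L, mt t k ^ 2 ≤ ∑ _k : T d L, (t⁻¹) ^ 2 := by
      refine Finset.sum_le_sum fun k _ => ?_
      exact pow_le_pow_left₀ (mt_pos t ht k).le (mt_le t ht k) 2
    rw [Finset.sum_const, Finset.card_univ, nsmul_eq_mul, Four.card_T] at h3
    have h4 : 0 < Four.NN d L := Four.NN_pos
    rw [inv_mul_le_iff₀ h4]
    exact h3
  refine (Finset.sum_le_sum fun x _ => h1 x).trans (le_of_eq ?_)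
  unfold NN
  rw [Finset.sum_mul]
  simp

/-- concentration of the quadratic form -/
theorem quad_conc (t a : ℝ) (ht : 0 < t) (ha : 0 < a) :
    (Γ (T d L)).real {V | NN d L * a < |∑ x, V x * gg t V x - NN d L * FL d L t|} ≤
      2 / (NN d L * t ^ 2 * a ^ 2) := by
  have hN : 0 < NN d L := NN_pos
  obtain ⟨h1, h2⟩ := quad_var (Km d L t) (Km_symm t)
  simp only [Km_form, Km_trace] at h1 h2
  have h3 := cheb (fun V : T d L → ℝ => ∑ x, V x * gg t V x - NN d L * FL d L t) h1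
    (2 * (NN d L * (t⁻¹) ^ 2)) (NN d L * a) (by positivity) (by
      rw [h2]
      have := Km_sq (d := d) (L := L) t ht
      linarith)
  refine h3.trans (le_of_eq ?_)
  field_simp

theorem sum_conc (a : ℝ) (ha : 0 < a) :
    (Γ (T d L)).real {V | NN d L * a < |∑ x, V x|} ≤ 1 / (NN d L * a ^ 2) := by
  have hN : 0 < NN d L := NN_pos
  obtain ⟨h1, h2⟩ := sum_var (κ := T d L)
  have h3 := cheb (fun V : T d L → ℝ => ∑ x, V x) h1 (NN d L) (NN d L * a) (by positivity) (by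
      rw [h2]
      have h4 := Four.card_T (d := d) (L := L)
      rw [h4, NN_eq]
      exact le_of_eq rfl)
  refine h3.trans (le_of_eq ?_)
  field_simp

/-- the limit of the sums over tori -/
theorem FL_lim (d : ℕ) (hd : 3 ≤ d) (ε : ℝ) (hε : 0 < ε) :
    ∃ t0 M : ℝ, 0 < t0 ∧ 0 < M ∧ ∀ (L : ℕ) [NeZero L] (t : ℝ), 0 < t → t ≤ t0 → M ≤ L →
      M ≤ (L : ℝ) ^ d * t → |FL d L t - Gd d| ≤ ε := by
  have hd0 : (0 : ℝ) < d := by
    have : (3 : ℝ) ≤ d := by exact_mod_cast hd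
    linarith
  obtain ⟨S, hS⟩ : ∃ S : ℝ, S = max 1 ((8 * (2 ^ d + 1) / ε) ^ 2) := ⟨_, rfl⟩
  have hS1 : 1 ≤ S := by rw [hS]; exact le_max_left _ _
  have hS0 : 0 < S := by linarith
  have hS2 : (2 ^ d + 1) * (2 / Real.sqrt S) ≤ ε / 4 := by
    have h1 : 8 * (2 ^ d + 1) / ε ≤ Real.sqrt S := by
      apply Real.le_sqrt_of_sq_le
      rw [hS]
      exact le_max_right _ _
    have h2 : 0 < Real.sqrt S := Real.sqrt_pos.2 hS0
    rw [div_le_iff₀ hε] at h1
    have h3 : (2 ^ d + 1) * (2 / Real.sqrt S) = (2 ^ d + 1) * 2 / Real.sqrt S := by ring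
    rw [h3, div_le_iff₀ h2]
    linarith
  refine ⟨ε / (4 * S ^ 2), max 1 (max (52 * d * S ^ 2 / ε) (4 * 4 ^ d / ε)), by positivity,
    by positivity, ?_⟩
  intro L _ t ht ht0 hL1 hL2
  have hL := L_pos L
  have hLa : 52 * d * S ^ 2 / ε ≤ L := (le_max_left _ _).trans ((le_max_right _ _).trans hL1)
  have hLb : 4 * 4 ^ d / ε ≤ (L : ℝ) ^ d * t :=
    (le_max_right _ _).trans ((le_max_right _ _).trans hL2)
  refine (FL_sub d L hd t S ht hS1).trans ?_
  have h1 : S * (t * S) ≤ ε / 4 := by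
    calc S * (t * S) = t * S ^ 2 := by ring
      _ ≤ ε / (4 * S ^ 2) * S ^ 2 := by gcongr
      _ = ε / 4 := by field_simp
  have h2 : S * (13 * d * S / L) ≤ ε / 4 := by
    rw [div_le_iff₀ hε] at hLa
    have h3 : S * (13 * d * S / L) = 13 * d * S ^ 2 / L := by ring
    rw [h3, div_le_iff₀ hL]
    linarith
  have h3 : 4 ^ d / ((L : ℝ) ^ d * t) ≤ ε / 4 := by
    rw [div_le_iff₀ hε] at hLb
    rw [div_le_iff₀ (by positivity)]
    linarith
  have h4 : S * (t * S + 13 * d * S / L) = S * (t * S) + S * (13 * d * S / L) := by ring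
  rw [h4]
  linarith

/-- the good event -/
structure Good (ε t0 b : ℝ) (V : T d L → ℝ) : Prop where
  mean : |∑ x, V x| ≤ NN d L * (ε * (b ^ 4)⁻¹)
  sup : ∀ x, |V x| ≤ b
  q1 : |∑ x, V x * gg ((b ^ 8)⁻¹) V x - NN d L * Gd d| ≤ NN d L * ε
  q2 : |∑ x, V x * gg t0 V x - NN d L * Gd d| ≤ NN d L * ε

theorem good_prob (d : ℕ) (hd : 3 ≤ d) (ε : ℝ) (hε : 0 < ε) :
    ∃ t0 b0 : ℝ, 0 < t0 ∧ 1 ≤ b0 ∧ ∀ b : ℝ, b0 ≤ b → ∀ (L : ℕ) [NeZero L], b ^ 6 ≤ L →
      (L : ℝ) ≤ 2 * b ^ 6 → (Γ (T d L)).real {V | ¬ Good ε t0 b V} ≤ 1 / 4 := by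
  obtain ⟨t0, M, ht0, hM, hF⟩ := FL_lim d hd (ε / 2) (by positivity)
  have hexp : Tendsto (fun b : ℝ => 2 ^ (d + 1) * (b ^ (6 * d) * Real.exp (-(1 / 2) * b))) atTop
      (𝓝 (2 ^ (d + 1) * 0)) := by
    apply Tendsto.const_mul
    have h := tendsto_rpow_mul_exp_neg_mul_atTop_nhds_zero ((6 * d : ℕ) : ℝ) (1 / 2) (by norm_num)
    simp only [Real.rpow_natCast] at h
    exact h
  rw [mul_zero] at hexp
  have he1 := hexp.eventually (ge_mem_nhds (by norm_num : (0 : ℝ) < 1 / 16))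
  obtain ⟨b1, hb1⟩ := Filter.eventually_atTop.1 he1
  refine ⟨t0, max (max (max 1 b1) (max M (M / t0))) (max (max (t0⁻¹) (16 / ε ^ 2))
    (max (128 / ε ^ 2) (128 / (ε ^ 2 * t0 ^ 2)))), ht0, ?_, ?_⟩
  · exact (le_max_left _ _).trans ((le_max_left _ _).trans (le_max_left _ _))
  intro b hb L _ hL1 hL2
  have hbb1 : 1 ≤ b := ((le_max_left _ _).trans ((le_max_left _ _).trans (le_max_left _ _))).trans hb
  have hbb2 : b1 ≤ b :=
    ((le_max_right _ _).trans ((le_max_left _ _).trans (le_max_left _ _))).trans hb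
  have hbb3 : M ≤ b :=
    ((le_max_left _ _).trans ((le_max_right _ _).trans (le_max_left _ _))).trans hb
  have hbb4 : M / t0 ≤ b :=
    ((le_max_right _ _).trans ((le_max_right _ _).trans (le_max_left _ _))).trans hb
  have hbb5 : t0⁻¹ ≤ b :=
    ((le_max_left _ _).trans ((le_max_left _ _).trans (le_max_right _ _))).trans hb
  have hbb6 : 16 / ε ^ 2 ≤ b :=
    ((le_max_right _ _).trans ((le_max_left _ _).trans (le_max_right _ _))).trans hb
  have hbb7 : 128 / ε ^ 2 ≤ b :=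
    ((le_max_left _ _).trans ((le_max_right _ _).trans (le_max_right _ _))).trans hb
  have hbb8 : 128 / (ε ^ 2 * t0 ^ 2) ≤ b :=
    ((le_max_right _ _).trans ((le_max_right _ _).trans (le_max_right _ _))).trans hb
  have hb0 : 0 < b := by linarith
  have hN : 0 < NN d L := NN_pos
  have hNL : b ^ 18 ≤ NN d L := by
    rw [NN_eq]
    have hL1' : (1 : ℝ) ≤ L := le_trans (one_le_pow₀ hbb1) hL1
    calc b ^ 18 = (b ^ 6) ^ 3 := by ring
      _ ≤ (L : ℝ) ^ 3 := by gcongr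
      _ ≤ (L : ℝ) ^ d := pow_le_pow_right₀ hL1' hd
  have hNU : NN d L ≤ 2 ^ d * b ^ (6 * d) := by
    rw [NN_eq]
    calc (L : ℝ) ^ d ≤ (2 * b ^ 6) ^ d := by gcongr
      _ = 2 ^ d * b ^ (6 * d) := by rw [mul_pow, ← pow_mul]
  have hbk : ∀ k : ℕ, 1 ≤ k → b ≤ b ^ k := fun k hk => le_self_pow₀ hbb1 (by omega)
  -- the limits
  have hMb6 : M ≤ (L : ℝ) := (hbb3.trans (hbk 6 (by norm_num))).trans hL1
  have hF1 : |FL d L ((b ^ 8)⁻¹) - Gd d| ≤ ε / 2 := by
    apply hF L _ (by positivity) _ hMb6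
    · rw [← NN_eq]
      calc M ≤ b ^ 10 := hbb3.trans (hbk 10 (by norm_num))
        _ = b ^ 18 * (b ^ 8)⁻¹ := by field_simp
        _ ≤ NN d L * (b ^ 8)⁻¹ := by gcongr
    · rw [inv_le_comm₀ (by positivity) ht0]
      exact hbb5.trans (hbk 8 (by norm_num))
  have hF2 : |FL d L t0 - Gd d| ≤ ε / 2 := by
    apply hF L _ ht0 le_rfl hMb6
    rw [← NN_eq]
    rw [div_le_iff₀ ht0] at hbb4
    calc M ≤ b * t0 := hbb4
      _ ≤ b ^ 18 * t0 := by
          have := hbk 18 (by norm_num)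
          gcongr
      _ ≤ NN d L * t0 := by gcongr
  -- the bad events
  have p1 := sum_conc (d := d) (L := L) (ε * (b ^ 4)⁻¹) (by positivity)
  have p2 := quad_conc (d := d) (L := L) ((b ^ 8)⁻¹) (ε / 2) (by positivity) (by positivity)
  have p3 := quad_conc (d := d) (L := L) t0 (ε / 2) ht0 (by positivity)
  have p4 := sup_tail (κ := T d L) b hb0.le
  have q1 : 1 / (NN d L * (ε * (b ^ 4)⁻¹) ^ 2) ≤ 1 / 16 := by
    apply one_div_le_one_div_of_le (by norm_num)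
    rw [div_le_iff₀ (by positivity)] at hbb6
    calc (16 : ℝ) ≤ b * ε ^ 2 := hbb6
      _ ≤ b ^ 10 * ε ^ 2 := by
          have := hbk 10 (by norm_num)
          gcongr
      _ = b ^ 18 * (ε * (b ^ 4)⁻¹) ^ 2 := by field_simp
      _ ≤ NN d L * (ε * (b ^ 4)⁻¹) ^ 2 := by gcongr
  have q2 : 2 / (NN d L * ((b ^ 8)⁻¹) ^ 2 * (ε / 2) ^ 2) ≤ 1 / 16 := by
    rw [div_le_iff₀ (by positivity)]
    rw [div_le_iff₀ (by positivity)] at hbb7
    have h1 : b * ε ^ 2 ≤ NN d L * ((b ^ 8)⁻¹) ^ 2 * ε ^ 2 := by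
      have h2 : b ≤ NN d L * ((b ^ 8)⁻¹) ^ 2 := by
        calc b ≤ b ^ 2 := hbk 2 (by norm_num)
          _ = b ^ 18 * ((b ^ 8)⁻¹) ^ 2 := by field_simp
          _ ≤ _ := by gcongr
      gcongr
    linarith
  have q3 : 2 / (NN d L * t0 ^ 2 * (ε / 2) ^ 2) ≤ 1 / 16 := by
    rw [div_le_iff₀ (by positivity)]
    rw [div_le_iff₀ (by positivity)] at hbb8
    have h1 : b * (ε ^ 2 * t0 ^ 2) ≤ NN d L * (ε ^ 2 * t0 ^ 2) := by
      have h2 : b ≤ NN d L := (hbk 18 (by norm_num)).trans hNL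
      gcongr
    linarith
  have q4 : (Fintype.card (T d L) : ℝ) * (2 * Real.exp (-(b ^ 2 / 2))) ≤ 1 / 16 := by
    have h1 := hb1 b hbb2
    have h2 : (Fintype.card (T d L) : ℝ) = NN d L := by
      rw [NN_eq]
      exact Four.card_T
    rw [h2]
    refine le_trans ?_ h1
    have h3 : Real.exp (-(b ^ 2 / 2)) ≤ Real.exp (-(1 / 2) * b) := by
      apply Real.exp_le_exp.2
      nlinarith
    calc NN d L * (2 * Real.exp (-(b ^ 2 / 2))) ≤
          (2 ^ d * b ^ (6 * d)) * (2 * Real.exp (-(1 / 2) * b)) := by gcongr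
      _ = _ := by ring
  have hsub : {V : T d L → ℝ | ¬ Good ε t0 b V} ⊆
      ({V | NN d L * (ε * (b ^ 4)⁻¹) < |∑ x, V x|} ∪
        {V | NN d L * (ε / 2) < |∑ x, V x * gg ((b ^ 8)⁻¹) V x - NN d L * FL d L ((b ^ 8)⁻¹)|}) ∪
      ({V | NN d L * (ε / 2) < |∑ x, V x * gg t0 V x - NN d L * FL d L t0|} ∪
        {V | ∃ x, b < |V x|}) := by
    intro V hV
    by_contra hcon
    simp only [Set.mem_union, Set.mem_setOf_eq, not_or, not_lt, not_exists] at hcon
    obtain ⟨⟨c1, c2⟩, c3, c4⟩ := hcon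
    apply hV
    have hcmb : ∀ Q F : ℝ, |Q - NN d L * F| ≤ NN d L * (ε / 2) → |F - Gd d| ≤ ε / 2 →
        |Q - NN d L * Gd d| ≤ NN d L * ε := by
      intro Q F h1 h2
      have h3 : Q - NN d L * Gd d = (Q - NN d L * F) + NN d L * (F - Gd d) := by ring
      rw [h3]
      refine (abs_add_le _ _).trans ?_
      rw [abs_mul, abs_of_pos hN]
      have h4 := mul_le_mul_of_nonneg_left h2 hN.le
      linarith
    exact ⟨c1, c4, hcmb _ _ c2 hF1, hcmb _ _ c3 hF2⟩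
  refine (measureReal_mono hsub (measure_ne_top _ _)).trans ?_
  refine (measureReal_union_le _ _).trans ?_
  have r1 := measureReal_union_le (μ := Γ (T d L)) {V : T d L → ℝ | NN d L * (ε * (b ^ 4)⁻¹) < |∑ x, V x|}
    {V | NN d L * (ε / 2) < |∑ x, V x * gg ((b ^ 8)⁻¹) V x - NN d L * FL d L ((b ^ 8)⁻¹)|}
  have r2 := measureReal_union_le (μ := Γ (T d L))
    {V : T d L → ℝ | NN d L * (ε / 2) < |∑ x, V x * gg t0 V x - NN d L * FL d L t0|}
    {V | ∃ x, b < |V x|}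
  linarith

end Pool.Agent.Y661.ED
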